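import Mathlib
import Pool.Agent.N772.SC.Main

/-!
# The choice of a radius in a given interval
-/

set_option autoImplicit false

open Polynomial MeasureTheory

namespace Pool.Agent.N639.SC

open Pool.Agent.N772.SC

lemma f_nonneg {u v : ℝ} (hu : 0 ≤ u) (hv : 0 < v) (huv : u ≠ v) :
    0 ≤ Real.log (u + v) - Real.log (u - v) := by
  have h1 : Real.log (u - v) = Real.log |u - v| := (Real.log_abs _).symm
  rw [h1]
  have h2 : 0 < |u - v| := abs_pos.2 (sub_ne_zero.2 huv)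
  have h3 : |u - v| ≤ u + v := by
    rw [abs_le]
    constructor <;> linarith
  linarith [Real.log_le_log h2 h3]

lemma ii_f (U v : ℝ) : IntervalIntegrable (fun u => Real.log (u + v) - Real.log (u - v)) volume 0 U :=
  (ii1 U v).sub (ii2 U v)

lemma int_sub_bound {U₁ U v : ℝ} (h0 : 0 ≤ U₁) (hU : U₁ < U) (hv : 0 < v) :
    ∫ u in U₁..U, (Real.log (u + v) - Real.log (u - v)) ≤ 12 / 5 * U := by
  have h1 := int_bound (h0.trans_lt hU) hv
  have h2 : (∫ u in (0:ℝ)..U₁, (Real.log (u + v) - Real.log (u - v))) +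
      ∫ u in U₁..U, (Real.log (u + v) - Real.log (u - v)) =
      ∫ u in (0:ℝ)..U, (Real.log (u + v) - Real.log (u - v)) :=
    intervalIntegral.integral_add_adjacent_intervals (ii_f U₁ v) ((ii_f U₁ v).symm.trans (ii_f U v))
  have h3 : 0 ≤ ∫ u in (0:ℝ)..U₁, (Real.log (u + v) - Real.log (u - v)) := by
    apply intervalIntegral.integral_nonneg_of_ae_restrict h0
    have h4 : ∀ᵐ u ∂(volume : Measure ℝ), u ≠ v := by simp [ae_iff]
    filter_upwards [ae_restrict_of_ae h4, ae_restrict_mem measurableSet_Icc] with u hu hu2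
    exact f_nonneg hu2.1 hv hu
  linarith

lemma ii_sum' (s : Multiset ℝ) (U₁ U : ℝ) : IntervalIntegrable
    (fun u => (s.map fun v => Real.log (u + v) - Real.log (u - v)).sum) volume U₁ U :=
  (ii_sum s U₁).symm.trans (ii_sum s U)

lemma int_sum_sub_bound (s : Multiset ℝ) (hs : ∀ v ∈ s, 0 < v) {U₁ U : ℝ} (h0 : 0 ≤ U₁) (hU : U₁ < U) :
    ∫ u in U₁..U, (s.map fun v => Real.log (u + v) - Real.log (u - v)).sum ≤
      12 / 5 * s.card * U := by
  induction s using Multiset.induction_on with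
  | empty => simp
  | cons v s ih =>
    simp only [Multiset.map_cons, Multiset.sum_cons, Multiset.card_cons]
    rw [intervalIntegral.integral_add ((ii_f U₁ v).symm.trans (ii_f U v)) (ii_sum' s U₁ U)]
    have h1 := int_sub_bound h0 hU (hs v (Multiset.mem_cons_self v s))
    have h2 := ih (fun w hw => hs w (Multiset.mem_cons_of_mem hw))
    push_cast
    linarith

/-- the choice of the radius in a given interval -/
theorem exists_radius_in (s : Multiset ℝ) (hs : ∀ v ∈ s, 0 < v) {U₁ U : ℝ} (h0 : 0 ≤ U₁) (hU : U₁ < U) :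
    ∃ u, U₁ < u ∧ u ≤ U ∧ (∀ v ∈ s, u ≠ v) ∧
      (s.map fun v => Real.log (u + v) - Real.log (u - v)).sum ≤ 12 / 5 * s.card * (U / (U - U₁)) := by
  classical
  obtain ⟨Φ, hΦ⟩ : ∃ Φ : ℝ → ℝ, Φ = fun u =>
    (s.map fun v => Real.log (u + v) - Real.log (u - v)).sum := ⟨_, rfl⟩
  have hd : 0 < U - U₁ := by linarith
  have hii : IntervalIntegrable Φ volume U₁ U := by
    rw [hΦ]
    exact ii_sum' s U₁ U
  have hint : ∫ u in U₁..U, Φ u ≤ 12 / 5 * s.card * U := by
    rw [hΦ]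
    exact int_sum_sub_bound s hs h0 hU
  have hμ : (volume.restrict (Set.Ioc U₁ U)) ≠ 0 := by
    rw [Ne, Measure.restrict_eq_zero, Real.volume_Ioc]
    simp [hU]
  have : IsFiniteMeasure (volume.restrict (Set.Ioc U₁ U)) := by
    constructor
    rw [Measure.restrict_apply_univ, Real.volume_Ioc]
    exact ENNReal.ofReal_lt_top
  have hnull : (volume.restrict (Set.Ioc U₁ U)) ((Set.Ioc U₁ U)ᶜ ∪ (s.toFinset : Set ℝ)) = 0 := by
    apply measure_union_null
    · rw [Measure.restrict_apply (measurableSet_Ioc.compl)]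
      simp
    · exact (Finset.finite_toSet _).measure_zero _
  obtain ⟨u, hu, hle⟩ := exists_notMem_null_le_average hμ (hii.1) hnull
  rw [Set.mem_union, not_or] at hu
  obtain ⟨hu1, hu2⟩ := hu
  rw [Set.notMem_compl_iff] at hu1
  refine ⟨u, hu1.1, hu1.2, ?_, ?_⟩
  · intro v hv h
    apply hu2
    rw [h]
    simpa using hv
  · have h1 : ⨍ a in Set.Ioc U₁ U, Φ a = (U - U₁)⁻¹ * ∫ u in U₁..U, Φ u := by
      rw [setAverage_eq, intervalIntegral.integral_of_le hU.le, smul_eq_mul]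
      congr 2
      rw [Measure.real, Real.volume_Ioc, ENNReal.toReal_ofReal hd.le]
    rw [h1] at hle
    have h2 : (U - U₁)⁻¹ * ∫ u in U₁..U, Φ u ≤ (U - U₁)⁻¹ * (12 / 5 * s.card * U) :=
      mul_le_mul_of_nonneg_left hint (by positivity)
    have h3 : (U - U₁)⁻¹ * (12 / 5 * s.card * U) = 12 / 5 * s.card * (U / (U - U₁)) := by
      field_simp
    rw [h3] at h2
    have h4 : Φ u = (s.map fun v => Real.log (u + v) - Real.log (u - v)).sum := by
      rw [hΦ]
    rw [← h4]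
    linarith

/-- a circle on which `B` is small against `z ^ N A` -/
theorem exists_circle {A B : ℂ[X]} (hA : A ≠ 0) {N g : ℕ} {H : ℝ} (hH : 0 < H)
    (hdeg : B.natDegree + g ≤ N + A.natDegree)
    (hB : ∀ z : ℂ, ‖z‖ = 1 → ‖B.eval z‖ ≤ H * ‖A.eval z‖) {U₁ U c : ℝ} (h0 : 0 < U₁) (hU : U₁ < U)
    (hU1 : U < 1)
    (hg : c + Real.log H + 12 / 5 * ((out A).card : ℝ) * (U / (U - U₁)) ≤ 2 * g * U₁) :
    ∃ x : ℝ, (1 + U₁) / (1 - U₁) < x ∧ x ≤ (1 + U) / (1 - U) ∧
      (∀ z : ℂ, ‖z‖ = x → A.eval z ≠ 0) ∧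
      ∀ z : ℂ, ‖z‖ = x → ‖B.eval z‖ ≤ Real.exp (-c) * (x ^ N * ‖A.eval z‖) := by
  classical
  obtain ⟨u, hu0', huU, hus, hu⟩ := exists_radius_in
    ((out A).map fun a => (‖a‖ - 1) / (‖a‖ + 1)) (by
      intro v hv
      obtain ⟨a, ha, rfl⟩ := Multiset.mem_map.1 hv
      have : 1 < ‖a‖ := (Multiset.mem_filter.1 ha).2
      exact div_pos (by linarith) (by linarith)) h0.le hU
  have hu0 : 0 < u := h0.trans hu0'
  have hu1 : u < 1 := by linarith
  rw [Multiset.card_map] at hu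
  obtain ⟨x, hx⟩ : ∃ x : ℝ, x = (1 + u) / (1 - u) := ⟨_, rfl⟩
  have hx1 : 1 < x := by
    rw [hx, lt_div_iff₀ (by linarith)]
    linarith
  have hx0 : 0 < x := by linarith
  have hlx : 2 * u ≤ Real.log x := by rw [hx]; exact log_ge hu0 hu1
  have hr : ∀ a ∈ out A, x ≠ ‖a‖ ∧
      Real.log ((x * ‖a‖ - 1) / |x - ‖a‖|) =
        Real.log (u + (‖a‖ - 1) / (‖a‖ + 1)) - Real.log (u - (‖a‖ - 1) / (‖a‖ + 1)) ∧
      0 < (x * ‖a‖ - 1) / |x - ‖a‖| := by
    intro a ha
    have h1 : 1 < ‖a‖ := (Multiset.mem_filter.1 ha).2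
    rw [hx]
    exact ratio_eq hu0 hu1 h1 (hus _ (Multiset.mem_map_of_mem _ ha))
  obtain ⟨ρ, hρ⟩ : ∃ ρ : ℝ, ρ = ((out A).map fun a => (x * ‖a‖ - 1) / |x - ‖a‖|).prod := ⟨_, rfl⟩
  have hρpos : 0 < ρ ∧ Real.log ρ = ((out A).map fun a =>
      Real.log (u + (‖a‖ - 1) / (‖a‖ + 1)) - Real.log (u - (‖a‖ - 1) / (‖a‖ + 1))).sum := by
    rw [hρ]
    have key : ∀ t : Multiset ℂ, (∀ a ∈ t, x ≠ ‖a‖ ∧
      Real.log ((x * ‖a‖ - 1) / |x - ‖a‖|) =
        Real.log (u + (‖a‖ - 1) / (‖a‖ + 1)) - Real.log (u - (‖a‖ - 1) / (‖a‖ + 1)) ∧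
      0 < (x * ‖a‖ - 1) / |x - ‖a‖|) →
      0 < (t.map fun a => (x * ‖a‖ - 1) / |x - ‖a‖|).prod ∧
      Real.log (t.map fun a => (x * ‖a‖ - 1) / |x - ‖a‖|).prod = (t.map fun a =>
        Real.log (u + (‖a‖ - 1) / (‖a‖ + 1)) - Real.log (u - (‖a‖ - 1) / (‖a‖ + 1))).sum := by
      intro t
      induction t using Multiset.induction_on with
      | empty => simp
      | cons a t ih =>
        intro ht
        obtain ⟨h1, h2⟩ := ih (fun b hb => ht b (Multiset.mem_cons_of_mem hb))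
        obtain ⟨-, h3, h4⟩ := ht a (Multiset.mem_cons_self a t)
        rw [Multiset.map_cons, Multiset.prod_cons, Multiset.map_cons, Multiset.sum_cons,
          Real.log_mul h4.ne' h1.ne', h2, h3]
        exact ⟨mul_pos h4 h1, rfl⟩
    exact key _ hr
  obtain ⟨hρ0, hρl⟩ := hρpos
  have hsum : (Multiset.map (fun v => Real.log (u + v) - Real.log (u - v))
      ((out A).map fun a => (‖a‖ - 1) / (‖a‖ + 1))).sum = Real.log ρ := by
    rw [hρl, Multiset.map_map]
    rfl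
  rw [hsum] at hu
  have hmono : ∀ {p q : ℝ}, 0 < p → p < q → q < 1 → (1 + p) / (1 - p) < (1 + q) / (1 - q) := by
    intro p q hp hpq hq
    rw [div_lt_div_iff₀ (by linarith) (by linarith)]
    nlinarith
  refine ⟨x, ?_, ?_, ?_, ?_⟩
  · rw [hx]; exact hmono h0 hu0' hu1
  · rcases huU.eq_or_lt with h | h
    · rw [hx, h]
    · rw [hx]; exact (hmono hu0 h hU1).le
  · intro z hz h
    have hzr : z ∈ A.roots := (mem_roots hA).2 h
    have : z ∈ out A := Multiset.mem_filter.2 ⟨hzr, by rw [hz]; exact hx1⟩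
    exact (hr z this).1 hz.symm
  · intro z hz
    have h1 := ext_bound hA hH.le hdeg hB hx1 (fun a ha => (hr a ha).1) hz
    rw [← hρ] at h1
    have h2 : 0 < x ^ g := by positivity
    have hη : H * ρ / x ^ g ≤ Real.exp (-c) := by
      have h3 : 0 < H * ρ / x ^ g := by positivity
      rw [← Real.log_le_iff_le_exp h3, Real.log_div (by positivity) (by positivity),
        Real.log_mul (by positivity) hρ0.ne', Real.log_pow]
      have h4 : (g:ℝ) * (2 * U₁) ≤ g * Real.log x :=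
        mul_le_mul_of_nonneg_left (by linarith) (Nat.cast_nonneg g)
      linarith
    have h3 : H * ρ / x ^ g * (x ^ N * ‖A.eval z‖) = (H * x ^ N * ‖A.eval z‖ * ρ) / x ^ g := by
      field_simp
    calc ‖B.eval z‖ ≤ H * ρ / x ^ g * (x ^ N * ‖A.eval z‖) := by
          rw [h3, le_div_iff₀ h2]; exact h1
      _ ≤ _ := mul_le_mul_of_nonneg_right hη (by positivity)

end Pool.Agent.N639.SC
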