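import Mathlib
import Pool.Agent.N639.SC.A
import Pool.Agent.R341.Rou

/-!
# Zeros outside a circle, and Mahler measures
-/

set_option autoImplicit false

open Polynomial MeasureTheory

namespace Pool.Agent.N639.SC

open Pool.Agent.N772.SC

open Classical in
/-- the zeros outside the closed disc of radius `x`, with multiplicity -/
noncomputable def outx (x : ℝ) (P : ℂ[X]) : Multiset ℂ := P.roots.filter fun a => x < ‖a‖

open Classical in
/-- the zeros in the annulus `1 < |z| ≤ r`, with multiplicity -/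
noncomputable def ann (r : ℝ) (P : ℂ[X]) : Multiset ℂ := P.roots.filter fun a => 1 < ‖a‖ ∧ ‖a‖ ≤ r

lemma natDegree_XA {A : ℂ[X]} (hA : A ≠ 0) (N : ℕ) : (X ^ N * A).natDegree = N + A.natDegree := by
  rw [natDegree_mul (pow_ne_zero _ X_ne_zero) hA, natDegree_X_pow]

lemma natDegree_F {A B : ℂ[X]} (hA : A ≠ 0) {N : ℕ} (h : B.natDegree < N + A.natDegree) :
    (X ^ N * A + B).natDegree = N + A.natDegree := by
  rw [natDegree_add_eq_left_of_natDegree_lt (by rw [natDegree_XA hA]; exact h), natDegree_XA hA]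

lemma leadingCoeff_F {A B : ℂ[X]} (hA : A ≠ 0) {N : ℕ} (h : B.natDegree < N + A.natDegree) :
    (X ^ N * A + B).leadingCoeff = A.leadingCoeff := by
  rw [leadingCoeff_add_of_degree_lt' (by
    apply degree_lt_degree
    rw [natDegree_XA hA]
    exact h), leadingCoeff_mul, leadingCoeff_X_pow, one_mul]

lemma outx_XA {A : ℂ[X]} (hA : A ≠ 0) (N : ℕ) {x : ℝ} (hx : 0 ≤ x) : outx x (X ^ N * A) = outx x A := by
  classical
  unfold outx
  rw [roots_mul (mul_ne_zero (pow_ne_zero _ X_ne_zero) hA), roots_X_pow, Multiset.filter_add]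
  have h1 : (N • ({0} : Multiset ℂ)).filter (fun a => x < ‖a‖) = 0 := by
    rw [Multiset.filter_eq_nil]
    intro a ha
    have h2 := Multiset.mem_of_mem_nsmul ha
    rw [Multiset.mem_singleton] at h2
    rw [h2, norm_zero]
    linarith
  rw [h1, zero_add]

/-- Rouché: equally many zeros outside -/
theorem card_outx {A B : ℂ[X]} (hA : A ≠ 0) {N : ℕ} (hd : B.natDegree < N + A.natDegree) {x η : ℝ}
    (hx : 0 < x) (hη : η < 1) (hA0 : ∀ z : ℂ, ‖z‖ = x → A.eval z ≠ 0)
    (hB : ∀ z : ℂ, ‖z‖ = x → ‖B.eval z‖ ≤ η * (x ^ N * ‖A.eval z‖)) :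
    (outx x (X ^ N * A + B)).card = (outx x A).card ∧
      ∀ a ∈ (X ^ N * A + B).roots, ‖a‖ ≠ x := by
  classical
  have hpos : ∀ z : ℂ, ‖z‖ = x → 0 < x ^ N * ‖A.eval z‖ := by
    intro z hz
    exact mul_pos (by positivity) (norm_pos_iff.2 (hA0 z hz))
  have hev : ∀ z : ℂ, ‖z‖ = x → ‖(X ^ N * A).eval z‖ = x ^ N * ‖A.eval z‖ := by
    intro z hz
    rw [eval_mul, eval_pow, eval_X, norm_mul, norm_pow, hz]
  have hlt : ∀ z : ℂ, ‖z‖ = x → ‖(X ^ N * A).eval z - (X ^ N * A + B).eval z‖ < ‖(X ^ N * A).eval z‖ := by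
    intro z hz
    rw [eval_add, sub_add_cancel_left, norm_neg, hev z hz]
    exact (hB z hz).trans_lt (by nlinarith [hpos z hz])
  have hr := Pool.Agent.R341.Rou.rouche hx hlt
  have hXA : X ^ N * A ≠ 0 := mul_ne_zero (pow_ne_zero _ X_ne_zero) hA
  have hF0 : ∀ z : ℂ, ‖z‖ = x → (X ^ N * A + B).eval z ≠ 0 := by
    intro z hz h
    have := hlt z hz
    rw [h, sub_zero] at this
    exact lt_irrefl _ this
  have hF : X ^ N * A + B ≠ 0 := by
    intro h
    apply hF0 (x : ℂ) (by rw [Complex.norm_real, Real.norm_of_nonneg hx.le])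
    rw [h, eval_zero]
  have hcard : ∀ P : ℂ[X], (∀ a ∈ P.roots, ‖a‖ ≠ x) →
      (outx x P).card + Pool.Agent.R341.Rou.nz x P = P.natDegree := by
    intro P hP
    have h1 : P.roots.card = P.natDegree := (splits_iff_card_roots.1 (IsAlgClosed.splits P))
    have h2 := Multiset.filter_add_not (fun a : ℂ => x < ‖a‖) P.roots
    have h3 : P.roots.filter (fun a => ¬ x < ‖a‖) = P.roots.filter (fun z => ‖z‖ < x) := by
      apply Multiset.filter_congr
      intro a ha
      exact ⟨fun h => lt_of_le_of_ne (not_lt.1 h) (hP a ha), fun h => not_lt.2 h.le⟩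
    rw [h3] at h2
    have h4 := congrArg Multiset.card h2
    rw [Multiset.card_add, h1] at h4
    unfold outx Pool.Agent.R341.Rou.nz
    convert h4 using 2
  have hrF : ∀ a ∈ (X ^ N * A + B).roots, ‖a‖ ≠ x := by
    intro a ha h
    exact hF0 a h ((mem_roots hF).1 ha)
  have hrA : ∀ a ∈ (X ^ N * A).roots, ‖a‖ ≠ x := by
    intro a ha h
    have h1 := (mem_roots hXA).1 ha
    have h2 := hpos a h
    rw [← hev a h] at h2
    exact h2.ne' (by rw [h1, norm_zero])
  have e1 := hcard _ hrF
  have e2 := hcard _ hrA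
  rw [natDegree_F hA hd] at e1
  rw [natDegree_XA hA, outx_XA hA N hx.le] at e2
  refine ⟨by omega, hrF⟩

lemma prod_max {x : ℝ} (s : Multiset ℂ) [DecidablePred fun a : ℂ => x < ‖a‖] :
    x ^ s.card * ((s.filter fun a => x < ‖a‖).map fun a => ‖a‖).prod =
      x ^ (s.filter fun a => x < ‖a‖).card * (s.map fun a => max x ‖a‖).prod := by
  induction s using Multiset.induction_on with
  | empty => simp
  | cons a s ih =>
    rw [Multiset.map_cons, Multiset.prod_cons, Multiset.card_cons, pow_succ]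
    by_cases ha : x < ‖a‖
    · rw [Multiset.filter_cons_of_pos (p := fun a : ℂ => x < ‖a‖) _ ha, Multiset.map_cons,
        Multiset.prod_cons, Multiset.card_cons, pow_succ, max_eq_right ha.le]
      linear_combination x * ‖a‖ * ih
    · rw [Multiset.filter_cons_of_neg (p := fun a : ℂ => x < ‖a‖) _ ha, max_eq_left (not_lt.1 ha)]
      linear_combination x * ih

lemma one_le_prod (s : Multiset ℂ) (h : ∀ a ∈ s, 1 ≤ ‖a‖) : 1 ≤ (s.map fun a => ‖a‖).prod := by
  induction s using Multiset.induction_on with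
  | empty => simp
  | cons a s ih =>
    rw [Multiset.map_cons, Multiset.prod_cons]
    exact one_le_mul_of_one_le_of_one_le (h a (Multiset.mem_cons_self a s))
      (ih fun b hb => h b (Multiset.mem_cons_of_mem hb))

/-- the zeros outside a larger disc bound the Mahler measure from below -/
lemma le_mahler (P : ℂ[X]) {x : ℝ} (_ : 1 ≤ x) :
    ‖P.leadingCoeff‖ * ((outx x P).map fun a => ‖a‖).prod ≤ P.mahlerMeasure := by
  classical
  rw [mahlerMeasure_eq_leadingCoeff_mul_prod_roots]
  refine mul_le_mul_of_nonneg_left ?_ (norm_nonneg _)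
  unfold outx
  generalize P.roots = s
  induction s using Multiset.induction_on with
  | empty => simp
  | cons a s ih =>
    rw [Multiset.map_cons, Multiset.prod_cons]
    have h0 : 0 ≤ ((s.filter fun a => x < ‖a‖).map fun a => ‖a‖).prod := by
      apply Multiset.prod_nonneg
      intro y hy
      obtain ⟨b, -, rfl⟩ := Multiset.mem_map.1 hy
      exact norm_nonneg b
    by_cases ha : x < ‖a‖
    · rw [Multiset.filter_cons_of_pos (p := fun a : ℂ => x < ‖a‖) _ ha, Multiset.map_cons,
        Multiset.prod_cons]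
      exact mul_le_mul (le_max_right _ _) ih h0 (le_max_of_le_left zero_le_one)
    · rw [Multiset.filter_cons_of_neg (p := fun a : ℂ => x < ‖a‖) _ ha]
      refine ih.trans ?_
      have h1 : 0 ≤ (s.map fun a => max 1 ‖a‖).prod := h0.trans ih
      exact le_mul_of_one_le_left h1 (le_max_left _ _)

/-- the product of the zeros outside: comparison -/
theorem prod_outx_le {A B : ℂ[X]} (hA : A ≠ 0) {N : ℕ} (hd : B.natDegree < N + A.natDegree) {x η : ℝ}
    (hx : 0 < x) (hη : η < 1) (hA0 : ∀ z : ℂ, ‖z‖ = x → A.eval z ≠ 0)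
    (hB : ∀ z : ℂ, ‖z‖ = x → ‖B.eval z‖ ≤ η * (x ^ N * ‖A.eval z‖)) :
    (1 - η) * ((outx x A).map fun a => ‖a‖).prod ≤
      ((outx x (X ^ N * A + B)).map fun a => ‖a‖).prod := by
  classical
  have hXA : X ^ N * A ≠ 0 := mul_ne_zero (pow_ne_zero _ X_ne_zero) hA
  have hxz : ∀ z : ℂ, ‖z‖ = 1 → ‖(x : ℂ) * z‖ = x := by
    intro z hz
    rw [norm_mul, hz, mul_one, Complex.norm_real, Real.norm_of_nonneg hx.le]
  have hlow : ∀ z : ℂ, ‖z‖ = x → (1 - η) * (x ^ N * ‖A.eval z‖) ≤
      ‖(X ^ N * A + B).eval z‖ := by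
    intro z hz
    have h1 : ‖(X ^ N * A).eval z‖ = x ^ N * ‖A.eval z‖ := by
      rw [eval_mul, eval_pow, eval_X, norm_mul, norm_pow, hz]
    have h2 : ‖(X ^ N * A).eval z‖ ≤ ‖(X ^ N * A + B).eval z‖ + ‖B.eval z‖ := by
      rw [eval_add]
      exact norm_le_add_norm_add _ _
    have h3 := hB z hz
    rw [h1] at h2
    linarith
  have hf : X ^ N * A + B ≠ 0 := by
    intro h
    have := leadingCoeff_F hA hd
    rw [h, leadingCoeff_zero] at this
    exact hA (leadingCoeff_eq_zero.1 this.symm)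
  have h1 : (1 - η) * (sc x (X ^ N * A)).mahlerMeasure ≤
      (sc x (X ^ N * A + B)).mahlerMeasure := by
    apply mahler_mono (by linarith) (sc_ne_zero hx hf) (sc_ne_zero hx hXA)
    · intro z hz
      rw [eval_sc, eval_mul, eval_pow, eval_X]
      refine mul_ne_zero (pow_ne_zero _ ?_) (hA0 _ (hxz z hz))
      rw [← norm_ne_zero_iff, hxz z hz]
      exact hx.ne'
    · intro z hz
      rw [eval_sc, eval_sc]
      have h2 := hlow _ (hxz z hz)
      rw [eval_mul, eval_pow, eval_X, norm_mul, norm_pow, hxz z hz]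
      exact h2
  rw [mahler_sc hx, mahler_sc hx, leadingCoeff_F hA hd, leadingCoeff_mul, leadingCoeff_X_pow,
    one_mul] at h1
  have hl : 0 < ‖A.leadingCoeff‖ := norm_pos_iff.2 (leadingCoeff_ne_zero.2 hA)
  have h2 : (1 - η) * ((X ^ N * A).roots.map fun a => max x ‖a‖).prod ≤
      ((X ^ N * A + B).roots.map fun a => max x ‖a‖).prod := by
    have h3 : ‖A.leadingCoeff‖ * ((1 - η) * ((X ^ N * A).roots.map fun a => max x ‖a‖).prod) ≤
        ‖A.leadingCoeff‖ * ((X ^ N * A + B).roots.map fun a => max x ‖a‖).prod := by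
      calc _ = (1 - η) * (‖A.leadingCoeff‖ * ((X ^ N * A).roots.map fun a => max x ‖a‖).prod) := by ring
        _ ≤ _ := h1
    exact le_of_mul_le_mul_left h3 hl
  have e1 := prod_max (x := x) (X ^ N * A).roots
  have e2 := prod_max (x := x) (X ^ N * A + B).roots
  have hc1 : (X ^ N * A).roots.card = N + A.natDegree := by
    rw [(splits_iff_card_roots.1 (IsAlgClosed.splits (X ^ N * A))), natDegree_XA hA]
  have hc2 : (X ^ N * A + B).roots.card = N + A.natDegree := by
    rw [(splits_iff_card_roots.1 (IsAlgClosed.splits (X ^ N * A + B))), natDegree_F hA hd]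
  have o1 : (X ^ N * A).roots.filter (fun a => x < ‖a‖) = outx x A := outx_XA hA N hx.le
  have o2 : (X ^ N * A + B).roots.filter (fun a => x < ‖a‖) = outx x (X ^ N * A + B) := rfl
  rw [o1, hc1] at e1
  rw [o2, hc2, (card_outx hA hd hx hη hA0 hB).1] at e2
  have hp : 0 < x ^ (N + A.natDegree) := by positivity
  have hq : 0 < x ^ (outx x A).card := by positivity
  have h5 : x ^ (N + A.natDegree) * ((1 - η) * ((outx x A).map fun a => ‖a‖).prod) ≤
      x ^ (N + A.natDegree) * ((outx x (X ^ N * A + B)).map fun a => ‖a‖).prod := by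
    calc _ = (1 - η) * (x ^ (N + A.natDegree) * ((outx x A).map fun a => ‖a‖).prod) := by ring
      _ = x ^ (outx x A).card * ((1 - η) * ((X ^ N * A).roots.map fun a => max x ‖a‖).prod) := by
          rw [e1]; ring
      _ ≤ x ^ (outx x A).card * ((X ^ N * A + B).roots.map fun a => max x ‖a‖).prod :=
          mul_le_mul_of_nonneg_left h2 hq.le
      _ = _ := e2.symm
  exact le_of_mul_le_mul_left h5 hp

/-- zeros in the annulus are dropped -/
lemma mahler_le_ann (A : ℂ[X]) {x r : ℝ} (hx : 1 ≤ x) (hxr : x ≤ r) :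
    A.mahlerMeasure ≤ r ^ (ann r A).card * (‖A.leadingCoeff‖ * ((outx x A).map fun a => ‖a‖).prod) := by
  classical
  rw [mahlerMeasure_eq_leadingCoeff_mul_prod_roots]
  have hr : 1 ≤ r := hx.trans hxr
  have key : ∀ s : Multiset ℂ, (s.map fun a => max 1 ‖a‖).prod ≤
      r ^ (s.filter fun a => 1 < ‖a‖ ∧ ‖a‖ ≤ r).card *
        ((s.filter fun a => x < ‖a‖).map fun a => ‖a‖).prod := by
    intro s
    induction s using Multiset.induction_on with
    | empty => simp
    | cons a s ih =>
      rw [Multiset.map_cons, Multiset.prod_cons]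
      have h0 : 0 ≤ ((s.filter fun a => x < ‖a‖).map fun a => ‖a‖).prod := by
        apply Multiset.prod_nonneg
        intro y hy
        obtain ⟨b, -, rfl⟩ := Multiset.mem_map.1 hy
        exact norm_nonneg b
      have hm : 0 ≤ (s.map fun a => max 1 ‖a‖).prod := by
        apply Multiset.prod_nonneg
        intro y hy
        obtain ⟨b, -, rfl⟩ := Multiset.mem_map.1 hy
        exact le_max_of_le_left zero_le_one
      have hrp : 0 ≤ r ^ (s.filter fun a => 1 < ‖a‖ ∧ ‖a‖ ≤ r).card := by positivity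
      rcases le_or_gt ‖a‖ 1 with h1 | h1
      · rw [Multiset.filter_cons_of_neg (p := fun a : ℂ => 1 < ‖a‖ ∧ ‖a‖ ≤ r) _ (fun h => by linarith [h.1]),
          Multiset.filter_cons_of_neg (p := fun a : ℂ => x < ‖a‖) _ (by linarith), max_eq_left h1,
          one_mul]
        exact ih
      · rw [max_eq_right h1.le]
        rcases le_or_gt ‖a‖ x with h2 | h2
        · rw [Multiset.filter_cons_of_pos (p := fun a : ℂ => 1 < ‖a‖ ∧ ‖a‖ ≤ r) _ ⟨h1, h2.trans hxr⟩,
            Multiset.filter_cons_of_neg (p := fun a : ℂ => x < ‖a‖) _ (not_lt.2 h2),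
            Multiset.card_cons, pow_succ]
          calc ‖a‖ * (s.map fun a => max 1 ‖a‖).prod ≤ r * (r ^ (s.filter fun a => 1 < ‖a‖ ∧ ‖a‖ ≤ r).card *
                ((s.filter fun a => x < ‖a‖).map fun a => ‖a‖).prod) :=
                mul_le_mul (h2.trans hxr) ih hm (by linarith)
            _ = _ := by ring
        · rw [Multiset.filter_cons_of_pos (p := fun a : ℂ => x < ‖a‖) _ h2, Multiset.map_cons,
            Multiset.prod_cons]
          have h3 : ‖a‖ * (s.map fun a => max 1 ‖a‖).prod ≤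
              r ^ (s.filter fun a => 1 < ‖a‖ ∧ ‖a‖ ≤ r).card *
                (‖a‖ * ((s.filter fun a => x < ‖a‖).map fun a => ‖a‖).prod) := by
            calc _ ≤ ‖a‖ * (r ^ (s.filter fun a => 1 < ‖a‖ ∧ ‖a‖ ≤ r).card *
                  ((s.filter fun a => x < ‖a‖).map fun a => ‖a‖).prod) :=
                  mul_le_mul_of_nonneg_left ih (norm_nonneg a)
              _ = _ := by ring
          refine h3.trans (mul_le_mul_of_nonneg_right ?_ (mul_nonneg (norm_nonneg a) h0))
          apply pow_le_pow_right₀ hr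
          apply Multiset.card_le_card
          exact Multiset.filter_le_filter _ (Multiset.le_cons_self s a)
  calc ‖A.leadingCoeff‖ * (A.roots.map fun a => max 1 ‖a‖).prod
      ≤ ‖A.leadingCoeff‖ * (r ^ (A.roots.filter fun a => 1 < ‖a‖ ∧ ‖a‖ ≤ r).card *
        ((A.roots.filter fun a => x < ‖a‖).map fun a => ‖a‖).prod) :=
        mul_le_mul_of_nonneg_left (key _) (norm_nonneg _)
    _ = _ := by unfold ann outx; ring

end Pool.Agent.N639.SC
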