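import Mathlib
import Pool.Agent.N639.SC.B

/-!
# Long shifts: length linear in the number of outer zeros
-/

set_option autoImplicit false

open Polynomial MeasureTheory

namespace Pool.Agent.N639.SC

open Pool.Agent.N772.SC

lemma exp_lt_one' {c : ℝ} (hc : 0 < c) : Real.exp (-c) < 1 := by
  rw [← Real.exp_zero]
  exact Real.exp_lt_exp.2 (by linarith)

/-- **Main theorem** over the complex numbers -/
theorem main {A B : ℂ[X]} (hA : A ≠ 0) {N g : ℕ} {H : ℝ} (hH : 0 < H) (hg1 : 1 ≤ g)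
    (hdeg : B.natDegree + g ≤ N + A.natDegree)
    (hB : ∀ z : ℂ, ‖z‖ = 1 → ‖B.eval z‖ ≤ H * ‖A.eval z‖) {U₁ U c : ℝ} (h0 : 0 < U₁) (hU : U₁ < U)
    (hU1 : U < 1) (hc : 0 < c)
    (hg : c + Real.log H + 12 / 5 * ((out A).card : ℝ) * (U / (U - U₁)) ≤ 2 * g * U₁) :
    ∃ x : ℝ, (1 + U₁) / (1 - U₁) < x ∧ x ≤ (1 + U) / (1 - U) ∧
      (outx x (X ^ N * A + B)).card = (outx x A).card ∧ (∀ z : ℂ, ‖z‖ = x → A.eval z ≠ 0) ∧
      (1 - Real.exp (-c)) * (‖A.leadingCoeff‖ * ((outx x A).map fun a => ‖a‖).prod) ≤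
        (X ^ N * A + B).mahlerMeasure := by
  obtain ⟨x, h1, h2, h3, h4⟩ := exists_circle hA hH hdeg hB h0 hU hU1 hg
  have hx1 : 1 < x := by
    refine lt_trans ?_ h1
    rw [lt_div_iff₀ (by linarith)]
    linarith
  have hx : 0 < x := by linarith
  have hη : Real.exp (-c) < 1 := exp_lt_one' hc
  have hd : B.natDegree < N + A.natDegree := by omega
  refine ⟨x, h1, h2, (card_outx hA hd hx hη h3 h4).1, h3, ?_⟩
  have h5 := prod_outx_le hA hd hx hη h3 h4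
  have h6 := le_mahler (X ^ N * A + B) hx1.le
  rw [leadingCoeff_F hA hd] at h6
  refine le_trans ?_ h6
  calc _ = ‖A.leadingCoeff‖ * ((1 - Real.exp (-c)) * ((outx x A).map fun a => ‖a‖).prod) := by ring
    _ ≤ _ := mul_le_mul_of_nonneg_left h5 (norm_nonneg _)

/-- the measure, dropping the zeros in an annulus -/
theorem main_ann {A B : ℂ[X]} (hA : A ≠ 0) {N g : ℕ} {H : ℝ} (hH : 0 < H) (hg1 : 1 ≤ g)
    (hdeg : B.natDegree + g ≤ N + A.natDegree)
    (hB : ∀ z : ℂ, ‖z‖ = 1 → ‖B.eval z‖ ≤ H * ‖A.eval z‖) {U c : ℝ} (h0 : 0 < U)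
    (hU1 : U < 1) (hc : 0 < c)
    (hg : c + Real.log H + 24 / 5 * ((out A).card : ℝ) ≤ g * U) :
    (∃ x : ℝ, (1 + U / 2) / (1 - U / 2) < x ∧ x ≤ (1 + U) / (1 - U) ∧
      (outx x (X ^ N * A + B)).card = (outx x A).card) ∧
    (1 - Real.exp (-c)) * A.mahlerMeasure ≤
      ((1 + U) / (1 - U)) ^ (ann ((1 + U) / (1 - U)) A).card * (X ^ N * A + B).mahlerMeasure := by
  have hg' : c + Real.log H + 12 / 5 * ((out A).card : ℝ) * (U / (U - U / 2)) ≤ 2 * g * (U / 2) := by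
    have h1 : U / (U - U / 2) = 2 := by field_simp; ring
    rw [h1]
    linarith
  obtain ⟨x, h1, h2, h3, h4, h5⟩ := main hA hH hg1 hdeg hB (half_pos h0) (half_lt_self h0) hU1 hc hg'
  refine ⟨⟨x, h1, h2, h3⟩, ?_⟩
  have hx1 : 1 < x := by
    refine lt_trans ?_ h1
    rw [lt_div_iff₀ (by linarith)]
    linarith
  have hη : 0 ≤ 1 - Real.exp (-c) := by
    have : Real.exp (-c) < 1 := exp_lt_one' hc
    linarith
  have h6 := mahler_le_ann A hx1.le h2
  have hr : 0 < (1 + U) / (1 - U) := div_pos (by linarith) (by linarith)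
  calc (1 - Real.exp (-c)) * A.mahlerMeasure
      ≤ (1 - Real.exp (-c)) * (((1 + U) / (1 - U)) ^ (ann ((1 + U) / (1 - U)) A).card *
        (‖A.leadingCoeff‖ * ((outx x A).map fun a => ‖a‖).prod)) := mul_le_mul_of_nonneg_left h6 hη
    _ = ((1 + U) / (1 - U)) ^ (ann ((1 + U) / (1 - U)) A).card * ((1 - Real.exp (-c)) *
        (‖A.leadingCoeff‖ * ((outx x A).map fun a => ‖a‖).prod)) := by ring
    _ ≤ _ := mul_le_mul_of_nonneg_left h5 (by positivity)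

/-- a zero outside the disc of radius `59 / 50` -/
theorem house {A B : ℂ[X]} (hA : A ≠ 0) {N g : ℕ} {H : ℝ} (hH : 1 ≤ H)
    (hdeg : B.natDegree + g ≤ N + A.natDegree)
    (hB : ∀ z : ℂ, ‖z‖ = 1 → ‖B.eval z‖ ≤ H * ‖A.eval z‖)
    (hg : 159 * ((out A).card : ℝ) + 7 * Real.log H ≤ g)
    (ha : ∃ z : ℂ, A.eval z = 0 ∧ 6 / 5 ≤ ‖z‖) :
    ∃ z : ℂ, (X ^ N * A + B).eval z = 0 ∧ 59 / 50 < ‖z‖ := by
  classical
  obtain ⟨a, ha0, ha1⟩ := ha
  have hlH : 0 ≤ Real.log H := Real.log_nonneg hH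
  have hao : a ∈ out A := Multiset.mem_filter.2 ⟨(mem_roots hA).2 ha0, by linarith⟩
  have hk : 1 ≤ (out A).card := Multiset.card_pos_iff_exists_mem.2 ⟨a, hao⟩
  have hk' : (1:ℝ) ≤ (out A).card := by exact_mod_cast hk
  have hg1 : 1 ≤ g := by
    have : (1:ℝ) ≤ g := by linarith
    exact_mod_cast this
  obtain ⟨x, h1, h2, h3, h4, -⟩ := main hA (by linarith : 0 < H) hg1 hdeg hB (U₁ := 9 / 109) (U := 1 / 11)
    (c := 1 / 100) (by norm_num) (by norm_num) (by norm_num) (by norm_num) (by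
      norm_num
      linarith)
  norm_num at h1 h2
  have hax : x < ‖a‖ := by
    refine lt_of_le_of_ne (by linarith) ?_
    intro h
    exact h4 a h.symm ha0
  have hin : a ∈ outx x A := Multiset.mem_filter.2 ⟨(mem_roots hA).2 ha0, hax⟩
  have hpos : 0 < (outx x (X ^ N * A + B)).card := by
    rw [h3]
    exact Multiset.card_pos_iff_exists_mem.2 ⟨a, hin⟩
  obtain ⟨b, hb⟩ := Multiset.card_pos_iff_exists_mem.1 hpos
  have hb2 := Multiset.mem_filter.1 hb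
  have hF : X ^ N * A + B ≠ 0 := fun h => by
    rw [h] at hb2
    simp at hb2
  exact ⟨b, (mem_roots hF).1 hb2.1, by linarith [hb2.2]⟩

/-- one outer zero: shifts of length at least `10` -/
theorem one_outer {A B : ℂ[X]} (hA : A ≠ 0) {N g : ℕ}
    (hdeg : B.natDegree + g ≤ N + A.natDegree)
    (hB : ∀ z : ℂ, ‖z‖ = 1 → ‖B.eval z‖ ≤ ‖A.eval z‖) (hg : 10 ≤ g) (hk : (out A).card = 1)
    (ha : ∃ z : ℂ, A.eval z = 0 ∧ 32 / 25 ≤ ‖z‖) :
    ∃ z : ℂ, (X ^ N * A + B).eval z = 0 ∧ 117629 / 100000 < ‖z‖ := by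
  classical
  obtain ⟨a, ha0, ha1⟩ := ha
  have hao : a ∈ out A := Multiset.mem_filter.2 ⟨(mem_roots hA).2 ha0, by linarith⟩
  obtain ⟨b, hb⟩ := Multiset.card_eq_one.1 hk
  have hab : a = b := by rw [hb] at hao; exact Multiset.mem_singleton.1 hao
  subst hab
  obtain ⟨x, hx⟩ : ∃ x : ℝ, x = 117629 / 100000 := ⟨_, rfl⟩
  have hx1 : 1 < x := by rw [hx]; norm_num
  have hx0 : 0 < x := by linarith
  have hxa : ∀ w ∈ out A, x ≠ ‖w‖ := by
    intro w hw
    rw [hb, Multiset.mem_singleton] at hw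
    rw [hw, hx]
    intro h
    rw [← h] at ha1
    norm_num at ha1
  have hA0 : ∀ z : ℂ, ‖z‖ = x → A.eval z ≠ 0 := by
    intro z hz h
    have : z ∈ out A := Multiset.mem_filter.2 ⟨(mem_roots hA).2 h, by rw [hz]; exact hx1⟩
    exact hxa z this hz.symm
  have hlt : x < ‖a‖ := by rw [hx]; linarith
  obtain ⟨η, hη⟩ : ∃ η : ℝ, η = (x * ‖a‖ - 1) / (‖a‖ - x) / x ^ g := ⟨_, rfl⟩
  have hη1 : η < 1 := by
    rw [hη, div_lt_one (by positivity), div_lt_iff₀ (by linarith)]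
    have h1 : x ^ 10 ≤ x ^ g := pow_le_pow_right₀ hx1.le hg
    have h2 : x * ‖a‖ - 1 < x ^ 10 * (‖a‖ - x) := by
      have h3 : 0 < 32 / 25 * (x ^ 10 - x) - x ^ 11 + 1 := by rw [hx]; norm_num
      have h4 : 0 < x ^ 10 - x := by rw [hx]; norm_num
      nlinarith [mul_le_mul_of_nonneg_right ha1 h4.le]
    exact h2.trans_le (mul_le_mul_of_nonneg_right h1 (by linarith))
  have hBx : ∀ z : ℂ, ‖z‖ = x → ‖B.eval z‖ ≤ η * (x ^ N * ‖A.eval z‖) := by
    intro z hz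
    have h1 := ext_bound hA zero_le_one hdeg (fun w hw => by rw [one_mul]; exact hB w hw) hx1 hxa hz
    rw [hb, Multiset.map_singleton, Multiset.prod_singleton, one_mul, abs_sub_comm,
      abs_of_pos (by linarith : 0 < ‖a‖ - x)] at h1
    have h2 : 0 < x ^ g := by positivity
    have h3 : η * (x ^ N * ‖A.eval z‖) = (x ^ N * ‖A.eval z‖ * ((x * ‖a‖ - 1) / (‖a‖ - x))) / x ^ g := by
      rw [hη]
      field_simp
    rw [h3, le_div_iff₀ h2]
    exact h1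
  have hd : B.natDegree < N + A.natDegree := by omega
  have h5 := (card_outx hA hd hx0 hη1 hA0 hBx).1
  have hin : a ∈ outx x A := Multiset.mem_filter.2 ⟨(mem_roots hA).2 ha0, hlt⟩
  have hpos : 0 < (outx x (X ^ N * A + B)).card := by
    rw [h5]
    exact Multiset.card_pos_iff_exists_mem.2 ⟨a, hin⟩
  obtain ⟨w, hw⟩ := Multiset.card_pos_iff_exists_mem.1 hpos
  have hw2 := Multiset.mem_filter.1 hw
  have hF : X ^ N * A + B ≠ 0 := fun h => by
    rw [h] at hw2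
    simp at hw2
  exact ⟨w, (mem_roots hF).1 hw2.1, by rw [← hx]; exact hw2.2⟩

end Pool.Agent.N639.SC
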