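import Mathlib
import Pool.Agent.N639.SC.C

/-!
# Long shifts: integer polynomials
-/

set_option autoImplicit false

open Polynomial MeasureTheory

namespace Pool.Agent.N639.SC

open Pool.Agent.N772.SC

/-- the complex polynomial -/
noncomputable abbrev cx (A : ℤ[X]) : ℂ[X] := A.map (Int.castRingHom ℂ)

lemma ev (B : ℤ[X]) (z : ℂ) : (cx B).eval z = aeval z B := by
  rw [aeval_def, eval_map]
  rfl

lemma inj : Function.Injective (Int.castRingHom ℂ) := by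
  intro a b h
  simpa using h

lemma cx_ne {A : ℤ[X]} (hA : A ≠ 0) : cx A ≠ 0 := (Polynomial.map_ne_zero_iff inj).2 hA

lemma cx_deg (A : ℤ[X]) : (cx A).natDegree = A.natDegree := natDegree_map_eq_of_injective inj A

lemma cx_F (A B : ℤ[X]) (N : ℕ) : cx (X ^ N * A + B) = X ^ N * cx A + cx B := by
  simp [cx]

lemma one_le_lead {A : ℤ[X]} (hA : A ≠ 0) : 1 ≤ ‖(cx A).leadingCoeff‖ := by
  rw [cx, leadingCoeff_map_of_injective inj, eq_intCast, Complex.norm_intCast]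
  exact_mod_cast Int.one_le_abs (leadingCoeff_ne_zero.2 hA)

lemma root_le_mahler {P : ℂ[X]} (h1 : 1 ≤ ‖P.leadingCoeff‖) {w : ℂ} (hw : P.eval w = 0) :
    ‖w‖ ≤ P.mahlerMeasure := by
  classical
  have hP : P ≠ 0 := by
    rintro rfl
    simp at h1
    linarith
  rcases le_or_gt ‖w‖ 1 with h | h
  · exact h.trans (h1.trans (leadingCoeff_le_mahlerMeasure P))
  · have h2 := le_mahler P le_rfl
    have hin : w ∈ outx 1 P := Multiset.mem_filter.2 ⟨(mem_roots hP).2 hw, h⟩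
    obtain ⟨t, ht⟩ := Multiset.exists_cons_of_mem hin
    have h3 : 1 ≤ (t.map fun a => ‖a‖).prod := one_le_prod t fun b hb => by
      have : b ∈ outx 1 P := by rw [ht]; exact Multiset.mem_cons_of_mem hb
      exact (Multiset.mem_filter.1 this).2.le
    rw [ht, Multiset.map_cons, Multiset.prod_cons] at h2
    refine le_trans ?_ h2
    have h4 : ‖w‖ ≤ ‖w‖ * (t.map fun a => ‖a‖).prod := le_mul_of_one_le_right (norm_nonneg w) h3
    exact h4.trans (le_mul_of_one_le_left ((norm_nonneg w).trans h4) h1)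

lemma mahler_eq_out (P : ℂ[X]) : P.mahlerMeasure = ‖P.leadingCoeff‖ * ((out P).map fun a => ‖a‖).prod := by
  classical
  rw [mahlerMeasure_eq_leadingCoeff_mul_prod_roots]
  have h := prod_max (x := 1) P.roots
  rw [one_pow, one_pow, one_mul, one_mul] at h
  rw [← h]
  rfl

section

variable {A B : ℤ[X]} {N g : ℕ} {H : ℝ}

lemma hB' (hB : ∀ z : ℂ, ‖z‖ = 1 → ‖aeval z B‖ ≤ H * ‖aeval z A‖) :
    ∀ z : ℂ, ‖z‖ = 1 → ‖(cx B).eval z‖ ≤ H * ‖(cx A).eval z‖ := by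
  intro z hz
  rw [ev, ev]
  exact hB z hz

theorem int_ann (hA : A ≠ 0) (hg1 : 1 ≤ g) (hH : 1 ≤ H)
    (hdeg : B.natDegree + g ≤ N + A.natDegree)
    (hB : ∀ z : ℂ, ‖z‖ = 1 → ‖aeval z B‖ ≤ H * ‖aeval z A‖) {U c : ℝ} (h0 : 0 < U) (hU1 : U < 1)
    (hc : 0 < c) (hg : c + Real.log H + 24 / 5 * ((out (cx A)).card : ℝ) ≤ g * U) :
    (∃ x : ℝ, (1 + U / 2) / (1 - U / 2) < x ∧ x ≤ (1 + U) / (1 - U) ∧
      (outx x (cx (X ^ N * A + B))).card = (outx x (cx A)).card) ∧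
    (1 - Real.exp (-c)) * (cx A).mahlerMeasure ≤
      ((1 + U) / (1 - U)) ^ (ann ((1 + U) / (1 - U)) (cx A)).card * (cx (X ^ N * A + B)).mahlerMeasure := by
  have h := main_ann (cx_ne hA) (by linarith : 0 < H) hg1 (by rw [cx_deg, cx_deg]; exact hdeg) (hB' hB)
    h0 hU1 hc hg
  rw [cx_F]
  exact h

theorem int_smyth (hA : A ≠ 0) (hg1 : 1 ≤ g) (hH : 1 ≤ H)
    (hdeg : B.natDegree + g ≤ N + A.natDegree)
    (hB : ∀ z : ℂ, ‖z‖ = 1 → ‖aeval z B‖ ≤ H * ‖aeval z A‖) {U : ℝ} (h0 : 0 < U) (hU1 : U < 1)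
    (hg : 5 + Real.log H + 24 / 5 * ((out (cx A)).card : ℝ) ≤ g * U)
    (hm : ((1 + U) / (1 - U)) ^ (ann ((1 + U) / (1 - U)) (cx A)).card ≤ 53 / 50)
    (h1 : A.coeff 0 ≠ 0) (h2 : A.reverse ≠ A) (h3 : A.reverse ≠ -A) :
    119 / 100 ≤ (cx (X ^ N * A + B)).mahlerMeasure := by
  have h4 := (int_ann hA hg1 hH hdeg hB h0 hU1 (by norm_num : (0:ℝ) < 5) hg).2
  have h5 : 128 / 100 ≤ (cx A).mahlerMeasure := smyth A h1 h2 h3
  have he5 : Real.exp (-5) ≤ 1 / 140 := by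
    rw [Real.exp_neg, inv_eq_one_div]
    apply one_div_le_one_div_of_le (by norm_num)
    have h1 : Real.exp 5 = Real.exp 1 ^ 5 := by
      rw [← Real.exp_nat_mul]
      norm_num
    rw [h1]
    have h2 := Real.exp_one_gt_d9
    calc (140:ℝ) ≤ 2.7 ^ 5 := by norm_num
      _ ≤ Real.exp 1 ^ 5 := pow_le_pow_left₀ (by norm_num) (by linarith) 5
  have hMF : 0 ≤ (cx (X ^ N * A + B)).mahlerMeasure := mahlerMeasure_nonneg _
  have h6 := mul_le_mul_of_nonneg_right hm hMF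
  nlinarith

theorem int_house (hA : A ≠ 0) (hH : 1 ≤ H)
    (hdeg : B.natDegree + g ≤ N + A.natDegree)
    (hB : ∀ z : ℂ, ‖z‖ = 1 → ‖aeval z B‖ ≤ H * ‖aeval z A‖)
    (hg : 159 * ((out (cx A)).card : ℝ) + 7 * Real.log H ≤ g)
    (ha : ∃ z : ℂ, aeval z A = 0 ∧ 6 / 5 ≤ ‖z‖) :
    ∃ z : ℂ, aeval z (X ^ N * A + B) = 0 ∧ 59 / 50 < ‖z‖ := by
  obtain ⟨z, h1, h2⟩ := house (cx_ne hA) hH (by rw [cx_deg, cx_deg]; exact hdeg) (hB' hB) hg (by
    obtain ⟨z, h1, h2⟩ := ha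
    exact ⟨z, by rw [ev]; exact h1, h2⟩) (N := N)
  exact ⟨z, by rw [← ev, cx_F]; exact h1, h2⟩

theorem int_one_outer (hA : A ≠ 0) (hdeg : B.natDegree + g ≤ N + A.natDegree)
    (hB : ∀ z : ℂ, ‖z‖ = 1 → ‖aeval z B‖ ≤ ‖aeval z A‖) (hg : 10 ≤ g)
    (hk : (out (cx A)).card = 1) (hl : |A.leadingCoeff| = 1)
    (h1 : A.coeff 0 ≠ 0) (h2 : A.reverse ≠ A) (h3 : A.reverse ≠ -A) :
    ∃ z : ℂ, aeval z (X ^ N * A + B) = 0 ∧ 117629 / 100000 < ‖z‖ := by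
  obtain ⟨a, ha⟩ := Multiset.card_eq_one.1 hk
  have h5 : 128 / 100 ≤ (cx A).mahlerMeasure := smyth A h1 h2 h3
  have hl1 : ‖(cx A).leadingCoeff‖ = 1 := by
    rw [cx, leadingCoeff_map_of_injective inj, eq_intCast, Complex.norm_intCast]
    exact_mod_cast hl
  rw [mahler_eq_out, ha, Multiset.map_singleton, Multiset.prod_singleton, hl1, one_mul] at h5
  have hao : a ∈ out (cx A) := by rw [ha]; exact Multiset.mem_singleton_self a
  have hroot : (cx A).eval a = 0 := (mem_roots (cx_ne hA)).1 (Multiset.mem_filter.1 hao).1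
  obtain ⟨z, h6, h7⟩ := one_outer (B := cx B) (N := N) (cx_ne hA) (by rw [cx_deg, cx_deg]; exact hdeg)
    (fun z hz => by rw [ev, ev]; exact hB z hz) hg hk ⟨a, hroot, by linarith⟩
  exact ⟨z, by rw [← ev, cx_F]; exact h6, h7⟩

lemma lead_F (hA : A ≠ 0) (hd : B.natDegree < N + A.natDegree) :
    ‖(cx (X ^ N * A + B)).leadingCoeff‖ = ‖(cx A).leadingCoeff‖ := by
  rw [cx_F, leadingCoeff_F (cx_ne hA) (by rw [cx_deg, cx_deg]; exact hd)]

end

end Pool.Agent.N639.SC
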