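import Mathlib
import Pool.Agent.N639.SC.D
import Pool.Agent.H892.Parry.Common
import Pool.Agent.N772.SC.Gap
import Pool.Agent.N772.BL.Lead2

/-!
# Parry powers of Perron numbers and long shifts
-/

set_option autoImplicit false

open Polynomial Pool.Agent.H892.Parry

namespace Pool.Agent.N639.SC

lemma zero_le {β : ℝ} (hβ : IsPerron β) {Φ : ℤ[X]} (hΦ : (cx Φ).mahlerMeasure = 1) {z : ℂ}
    (hz : aeval z (minpoly ℤ β * Φ) = 0) : ‖z‖ ≤ β := by
  have hβ0 : 0 < β := by linarith [hβ.1]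
  rw [map_mul, mul_eq_zero] at hz
  rcases hz with hz | hz
  · by_cases h : z = (β : ℂ)
    · rw [h, Complex.norm_real, Real.norm_of_nonneg hβ0.le]
    · exact (hβ.2.2 z hz h).le
  · have hΦ0 : Φ ≠ 0 := by
      rintro rfl
      simp [cx] at hΦ
    have h1 := root_le_mahler (one_le_lead hΦ0) (w := z) (by rw [ev]; exact hz)
    rw [hΦ] at h1
    linarith [hβ.1]

lemma mahler_F {β : ℝ} {Φ : ℤ[X]} (hΦ : (cx Φ).mahlerMeasure = 1) :
    (cx (minpoly ℤ β * Φ)).mahlerMeasure = M β := by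
  rw [cx, Polynomial.map_mul, mahlerMeasure_mul, hΦ, mul_one]
  rfl

lemma not_parry {β : ℝ} (hβ : IsPerron β) (hlt : β < 1.17629) {m r : ℝ} {t : ℕ} (hr1 : 1 ≤ r)
    (h1 : r * 1.17629 ≤ m) (hm : m ≤ M β) (hr : 2 ≤ r ^ t) (n : ℕ) (hn : t * deg β ≤ n)
    (ht : 1 ≤ t) : ¬ IsParry (β ^ n) := by
  intro hp
  have hβ0 : 0 < β := by linarith [hβ.1]
  have hd := deg_pos hβ.2.1
  have hM := one_le_M hβ.2.1
  have hn1 : 1 ≤ n := le_trans (Nat.one_le_iff_ne_zero.2 (by positivity)) hn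
  exact key (r := r) (B := 1.17629) (A := m) (s := 1) (t := t) hβ0 hlt.le hr1 (by simpa using h1)
    (by simpa using hm) hr (by linarith) le_rfl hd (by simpa using hn) (general hβ hn1 hp)

end Pool.Agent.N639.SC
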