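import Mathlib
import Pool.Agent.N639.SC.D

/-!
# Shifts of length at least `k + 1`
-/

set_option autoImplicit false

open Polynomial
open Pool.Agent.N772.SC (out ext_bound)

namespace Pool.Agent.N639.SC

lemma pigeon (s : Multiset ℝ) {X : ℝ} (hX : 0 < X) :
    ∃ i : ℕ, i ≤ s.card ∧ ∀ a ∈ s, a ≤ 4 ^ i * X / 2 ∨ 2 * (4 ^ i * X) ≤ a := by
  classical
  by_contra hcon
  push Not at hcon
  choose! f hf using hcon
  have hlt : ∀ i j : ℕ, j ≤ s.card → i < j → f i ≠ f j := by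
    intro i j hj hij he
    obtain ⟨-, -, h1⟩ := hf i (hij.le.trans hj)
    obtain ⟨-, h2, -⟩ := hf j hj
    have h3 : (4:ℝ) ^ (i + 1) ≤ 4 ^ j := pow_le_pow_right₀ (by norm_num) hij
    have h4 := mul_le_mul_of_nonneg_right h3 hX.le
    rw [pow_succ] at h4
    linarith
  have h1 : (Finset.range (s.card + 1)).card ≤ s.toFinset.card := by
    apply Finset.card_le_card_of_injOn f
    · intro i hi
      have hi' : i < s.card + 1 := Finset.mem_range.1 hi
      exact Multiset.mem_toFinset.2 (hf i (by omega)).1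
    · intro i hi j hj hij
      have hi' : i < s.card + 1 := Finset.mem_range.1 hi
      have hj' : j < s.card + 1 := Finset.mem_range.1 hj
      rcases lt_trichotomy i j with h | h | h
      · exact absurd hij (hlt i j (by omega) h)
      · exact h
      · exact absurd hij.symm (hlt j i (by omega) h)
  rw [Finset.card_range] at h1
  have := Multiset.toFinset_card_le s
  omega

lemma prod_le_pow (t : Multiset ℂ) (f : ℂ → ℝ) {M : ℝ} (hM : 0 ≤ M) (h : ∀ a ∈ t, 0 ≤ f a ∧ f a ≤ M) :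
    0 ≤ (t.map f).prod ∧ (t.map f).prod ≤ M ^ t.card := by
  induction t using Multiset.induction_on with
  | empty => simp
  | cons a t ih =>
    obtain ⟨h1, h2⟩ := ih (fun b hb => h b (Multiset.mem_cons_of_mem hb))
    obtain ⟨h3, h4⟩ := h a (Multiset.mem_cons_self a t)
    rw [Multiset.map_cons, Multiset.prod_cons, Multiset.card_cons, pow_succ, mul_comm (M ^ t.card)]
    exact ⟨mul_nonneg h3 h1, mul_le_mul h4 h2 h1 hM⟩

theorem small_gap {A B : ℂ[X]} (hA : A ≠ 0) {N g : ℕ} {H : ℝ} (hH : 1 ≤ H)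
    (hdeg : B.natDegree + g ≤ N + A.natDegree)
    (hB : ∀ z : ℂ, ‖z‖ = 1 → ‖B.eval z‖ ≤ H * ‖A.eval z‖) (hk : (out A).card + 1 ≤ g) :
    ∃ x : ℝ, H * 2 ^ ((out A).card + 1) ≤ x ∧ x ≤ H * 2 ^ (3 * (out A).card + 1) ∧
      (outx x (X ^ N * A + B)).card = (outx x A).card ∧
      A.mahlerMeasure ≤ 2 * x ^ (out A).card * (X ^ N * A + B).mahlerMeasure := by
  classical
  obtain ⟨k, hkd⟩ : ∃ k : ℕ, k = (out A).card := ⟨_, rfl⟩
  rw [← hkd] at hk ⊢
  have hX0 : 0 < H * 2 ^ (k + 1) := by positivity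
  obtain ⟨i, hi, hia⟩ := pigeon ((out A).map fun a => ‖a‖) hX0
  rw [Multiset.card_map, ← hkd] at hi
  obtain ⟨x, hx⟩ : ∃ x : ℝ, x = 4 ^ i * (H * 2 ^ (k + 1)) := ⟨_, rfl⟩
  have hxX : H * 2 ^ (k + 1) ≤ x := by
    rw [hx]
    exact le_mul_of_one_le_left hX0.le (one_le_pow₀ (by norm_num))
  have hX2 : (2:ℝ) ≤ H * 2 ^ (k + 1) := by
    have h1 : (2:ℝ) ^ 1 ≤ 2 ^ (k + 1) := pow_le_pow_right₀ (by norm_num) (by omega)
    nlinarith
  have hx2 : 2 ≤ x := hX2.trans hxX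
  have hx1 : 1 < x := by linarith
  have hx0 : 0 < x := by linarith
  have hxu : x ≤ H * 2 ^ (3 * k + 1) := by
    have h1 : (4:ℝ) ^ i ≤ 4 ^ k := pow_le_pow_right₀ (by norm_num) hi
    have h2 : (2:ℝ) ^ (3 * k + 1) = 4 ^ k * 2 ^ (k + 1) := by
      have : (4:ℝ) = 2 ^ 2 := by norm_num
      rw [this, ← pow_mul, ← pow_add]
      congr 1
      ring
    rw [hx, h2]
    have h3 := mul_le_mul_of_nonneg_right h1 hX0.le
    linarith
  have hfar : ∀ a ∈ out A, 1 < ‖a‖ ∧ (‖a‖ ≤ x / 2 ∨ 2 * x ≤ ‖a‖) := by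
    intro a ha
    refine ⟨(Multiset.mem_filter.1 ha).2, ?_⟩
    rw [hx]
    exact hia _ (Multiset.mem_map_of_mem _ ha)
  have hne : ∀ a ∈ out A, x ≠ ‖a‖ := by
    intro a ha h
    rcases (hfar a ha).2 with h1 | h1 <;> linarith
  have hterm : ∀ a ∈ out A, 0 ≤ (x * ‖a‖ - 1) / |x - ‖a‖| ∧ (x * ‖a‖ - 1) / |x - ‖a‖| ≤ 2 * x := by
    intro a ha
    obtain ⟨h1, h2⟩ := hfar a ha
    have h3 : 0 ≤ x * ‖a‖ - 1 := by nlinarith
    refine ⟨div_nonneg h3 (abs_nonneg _), ?_⟩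
    rcases h2 with h2 | h2
    · rw [abs_of_pos (by linarith), div_le_iff₀ (by linarith)]
      nlinarith
    · rw [abs_of_neg (by linarith), div_le_iff₀ (by linarith)]
      nlinarith
  obtain ⟨hp0, hp⟩ := prod_le_pow (out A) (fun a => (x * ‖a‖ - 1) / |x - ‖a‖|)
    (by linarith : (0:ℝ) ≤ 2 * x) hterm
  rw [← hkd] at hp
  have hA0 : ∀ z : ℂ, ‖z‖ = x → A.eval z ≠ 0 := by
    intro z hz h
    have hzr : z ∈ A.roots := (mem_roots hA).2 h
    have : z ∈ out A := Multiset.mem_filter.2 ⟨hzr, by rw [hz]; exact hx1⟩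
    exact hne z this hz.symm
  have hBx : ∀ z : ℂ, ‖z‖ = x → ‖B.eval z‖ ≤ 1 / 2 * (x ^ N * ‖A.eval z‖) := by
    intro z hz
    have h1 := ext_bound hA (by linarith : 0 ≤ H) hdeg hB hx1 hne hz
    have hxg : 0 < x ^ g := by positivity
    have h2 : H * (2 * x) ^ k ≤ 1 / 2 * x ^ g := by
      have h3 : x ^ (k + 1) ≤ x ^ g := pow_le_pow_right₀ hx1.le hk
      have h4 : H * 2 ^ (k + 1) * x ^ k ≤ x * x ^ k := mul_le_mul_of_nonneg_right hxX (by positivity)
      rw [mul_pow]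
      rw [pow_succ] at h3 h4
      nlinarith
    have h5 : 0 ≤ x ^ N * ‖A.eval z‖ := by positivity
    have h6 : H * ((out A).map fun a => (x * ‖a‖ - 1) / |x - ‖a‖|).prod ≤ 1 / 2 * x ^ g :=
      (mul_le_mul_of_nonneg_left hp (by linarith)).trans h2
    have h7 := mul_le_mul_of_nonneg_left h6 h5
    have h8 : ‖B.eval z‖ * x ^ g ≤ 1 / 2 * (x ^ N * ‖A.eval z‖) * x ^ g := by
      calc _ ≤ _ := h1
        _ = (x ^ N * ‖A.eval z‖) * (H * ((out A).map fun a => (x * ‖a‖ - 1) / |x - ‖a‖|).prod) := by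
          ring
        _ ≤ _ := h7
        _ = _ := by ring
    exact le_of_mul_le_mul_right h8 hxg
  have hd : B.natDegree < N + A.natDegree := by omega
  refine ⟨x, hxX, hxu, (card_outx hA hd hx0 (by norm_num) hA0 hBx).1, ?_⟩
  have h5 := prod_outx_le hA hd hx0 (by norm_num) hA0 hBx
  have h6 := le_mahler (X ^ N * A + B) hx1.le
  rw [leadingCoeff_F hA hd] at h6
  have h7 := mahler_le_ann A hx1.le le_rfl
  have hann : (ann x A).card ≤ k := by
    rw [hkd]
    unfold ann out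
    apply Multiset.card_le_card
    apply Multiset.monotone_filter_right
    intro a ha
    exact ha.1
  have h8 : 0 ≤ ‖A.leadingCoeff‖ * ((outx x A).map fun a => ‖a‖).prod := by
    apply mul_nonneg (norm_nonneg _)
    apply Multiset.prod_nonneg
    intro y hy
    obtain ⟨b, -, rfl⟩ := Multiset.mem_map.1 hy
    exact norm_nonneg b
  have h9 : (0:ℝ) ≤ 2 * x ^ k := by positivity
  have hfin : A.mahlerMeasure ≤ 2 * x ^ k *
      (‖A.leadingCoeff‖ * ((outx x (X ^ N * A + B)).map fun a => ‖a‖).prod) := by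
   calc A.mahlerMeasure ≤ x ^ (ann x A).card * (‖A.leadingCoeff‖ * ((outx x A).map fun a => ‖a‖).prod) := h7
    _ ≤ x ^ k * (‖A.leadingCoeff‖ * ((outx x A).map fun a => ‖a‖).prod) :=
      mul_le_mul_of_nonneg_right (pow_le_pow_right₀ hx1.le hann) h8
    _ ≤ x ^ k * (‖A.leadingCoeff‖ * (2 * ((outx x (X ^ N * A + B)).map fun a => ‖a‖).prod)) := by
      apply mul_le_mul_of_nonneg_left _ (by positivity)
      apply mul_le_mul_of_nonneg_left _ (norm_nonneg _)
      linarith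
    _ = 2 * x ^ k * (‖A.leadingCoeff‖ * ((outx x (X ^ N * A + B)).map fun a => ‖a‖).prod) := by ring
  exact hfin.trans (mul_le_mul_of_nonneg_left h6 h9)

end Pool.Agent.N639.SC
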