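import Mathlib
import Pool.Agent.N639.SC.H
import Pool.Agent.N772.BL.Comp

/-!
# Bounded companions for long shifts
-/

set_option autoImplicit false

open Polynomial MeasureTheory
open Pool.Agent.H261R2.CM
open Pool.Agent.Y820.LB
open Pool.Agent.W242.IM (ae_eval_ne allM closure_of_LL m1_mem_LL)
open Pool.Agent.TH845.KN (BC BC_monoid)
open Pool.Agent.N772.BL (m1_nat)

namespace Pool.Agent.N639.SC

lemma dom_shift {A f : ℤ[X]} (hA : A ≠ 0) (hf : f ≠ 0) {H : ℝ} (hH : 1 ≤ H)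
    (h : ∀ z : ℂ, ‖z‖ = 1 → ‖(toC f).eval z‖ ≤ (1 + H) * ‖(toC A).eval z‖) :
    Dom (fun t => ‖ev1 A t / ev1 f t‖) (Real.log (2 + H) + Real.log (m1 A) - Real.log (m1 f)) := by
  have i1 := D_intervalIntegrable_log A
  have i2 := D_intervalIntegrable_log f
  refine ⟨fun t => (Real.log (2 + H) + Real.log ‖ev1 A t‖) - Real.log ‖ev1 f t‖,
    (intervalIntegrable_const.add i1).sub i2, ?_, ?_⟩
  · filter_upwards [D_ae_ne _ hA, D_ae_ne _ hf] with t h1 h2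
    refine ⟨norm_nonneg _, ?_⟩
    have h3 : 0 < ‖ev1 A t‖ := norm_pos_iff.2 h1
    have h4 : 0 < ‖ev1 f t‖ := norm_pos_iff.2 h2
    have h5 : ‖ev1 f t‖ ≤ (1 + H) * ‖ev1 A t‖ := h _ (D_norm_ez t)
    rw [← Real.log_mul (by linarith) h3.ne', ← Real.log_div (by positivity) h4.ne']
    apply Real.log_le_log (by positivity)
    rw [norm_div, le_div_iff₀ h4, add_mul, one_mul, div_mul_cancel₀ _ h4.ne']
    linarith
  · rw [intervalIntegral.integral_sub (intervalIntegrable_const.add i1) i2,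
      intervalIntegral.integral_add intervalIntegrable_const i1, ← D_log_m1, ← D_log_m1]
    simp

/-- a companion of a shift -/
theorem companion {A B f : ℤ[X]} {N : ℕ} {H : ℝ} (hA : A ≠ 0) (hf : f ≠ 0) (hfe : f = X ^ N * A + B)
    (hH : 1 ≤ H) (hB : ∀ z : ℂ, ‖z‖ = 1 → ‖aeval z B‖ ≤ H * ‖aeval z A‖)
    (hz : ∀ z : ℂ, 1 < ‖z‖ → aeval z A ≠ 0 ∨ aeval z B ≠ 0) :
    ∃ d P Q : ℤ[X], f = d * P ∧ d ≠ 0 ∧ P ≠ 0 ∧ Q ≠ 0 ∧ IsRelPrime P Q ∧
      (∀ z : ℂ, 1 < ‖z‖ → (toC d).eval z ≠ 0) ∧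
      mx1 P Q ≤ Real.log (m1 P) + (Real.log (2 + H) + Real.log (m1 A) - Real.log (m1 f)) := by
  have hev : ∀ (P : ℤ[X]) (z : ℂ), (toC P).eval z = aeval z P := fun P z => ev P z
  have hdom := dom_shift hA hf hH (by
    intro z hz
    rw [hev, hev, hfe, map_add, map_mul, map_pow, aeval_X]
    refine (norm_add_le _ _).trans ?_
    rw [norm_mul, norm_pow, hz, one_pow, one_mul, add_mul, one_mul]
    linarith [hB z hz])
  obtain ⟨P, Q, d, h1, h2, h3, h4, h5, h6, -, h8⟩ := reduce f A hf hA _ _ hdom (by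
    filter_upwards [D_ae_ne _ hf] with t ht
    rw [mul_div_cancel₀ _ ht])
  refine ⟨d, P, Q, h1, h3, h4, h5, h6, ?_, h8⟩
  intro z hz1 hz0
  rw [hev] at hz0
  have e1 : aeval z A = 0 := by rw [h2, map_mul, hz0, zero_mul]
  have e2 : aeval z f = 0 := by rw [h1, map_mul, hz0, zero_mul]
  have e3 : aeval z B = 0 := by
    rw [hfe, map_add, map_mul, e1, mul_zero, zero_add] at e2
    exact e2
  rcases hz z hz1 with h | h
  · exact h e1
  · exact h e3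

/-- the measures of the long shifts -/
def TSH (κ : ℝ → ℝ) : Set ℝ := {x : ℝ | ∃ (A B : ℤ[X]) (N g : ℕ) (H : ℝ),
  A ≠ 0 ∧ 1 ≤ g ∧ 1 ≤ H ∧ H ≤ κ x ∧ B.natDegree + g ≤ N + A.natDegree ∧
  (∀ z : ℂ, ‖z‖ = 1 → ‖aeval z B‖ ≤ H * ‖aeval z A‖) ∧
  (((Pool.Agent.N772.SC.out (cx A)).card + 1 ≤ g ∧
      ((Pool.Agent.N772.SC.out (cx A)).card : ℝ) ≤ κ x) ∨ ∃ U : ℝ, 0 < U ∧ U < 1 ∧
    1 + Real.log H + 24 / 5 * ((Pool.Agent.N772.SC.out (cx A)).card : ℝ) ≤ g * U ∧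
    ((1 + U) / (1 - U)) ^ (ann ((1 + U) / (1 - U)) (cx A)).card ≤ κ x) ∧
  (∀ z : ℂ, 1 < ‖z‖ → aeval z A ≠ 0 ∨ aeval z B ≠ 0) ∧ x = m1 (X ^ N * A + B)}

theorem BC_TSH {κ : ℝ → ℝ} (hκ : Monotone κ) : BC (TSH κ) := by
  intro B₀
  set κ₀ : ℝ := max (κ B₀) 1 with hκ₀
  have hκ1 : 1 ≤ κ₀ := le_max_right _ _
  obtain ⟨n₀, hn₀⟩ : ∃ n₀ : ℕ, κ₀ ≤ n₀ := exists_nat_ge κ₀
  have hn1 : (1:ℝ) ≤ n₀ := hκ1.trans hn₀
  have hn1' : 1 ≤ n₀ := by exact_mod_cast hn1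
  obtain ⟨E, hE⟩ : ∃ E : ℝ, E = ((n₀:ℝ) * 2 ^ (3 * n₀ + 1)) ^ n₀ := ⟨_, rfl⟩
  have hb1 : (1:ℝ) ≤ (n₀:ℝ) * 2 ^ (3 * n₀ + 1) := by
    have : (1:ℝ) ≤ 2 ^ (3 * n₀ + 1) := one_le_pow₀ (by norm_num)
    nlinarith
  have hEκ : κ₀ ≤ E := by
    have h1 : (n₀:ℝ) ≤ (n₀:ℝ) * 2 ^ (3 * n₀ + 1) :=
      le_mul_of_one_le_right (by linarith) (one_le_pow₀ (by norm_num))
    have h2 : (n₀:ℝ) * 2 ^ (3 * n₀ + 1) ≤ E := by
      rw [hE]
      exact le_self_pow₀ hb1 (by omega)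
    linarith
  set c : ℝ := Real.log (2 + κ₀) + Real.log (2 * E) with hc
  set T1 : Set ℝ := {y | ∃ P Q : ℤ[X], P ≠ 0 ∧ Q ≠ 0 ∧ IsRelPrime P Q ∧
    mx1 P Q ≤ Real.log (m1 P) + c ∧ y = m1 P} with hT1
  set T2 : Set ℝ := {y | ∃ n : ℕ, 1 ≤ n ∧ y = n} with hT2
  have b1 : BC T1 := by
    intro B'
    refine ⟨Real.log (max B' 1) + c, ?_⟩
    rintro y ⟨⟨P, Q, h1, h2, h3, h4, rfl⟩, hy⟩
    refine m1_mem_LL P Q h1 h2 h3 _ (h4.trans ?_)
    have h8 : 0 < m1 P := lt_of_lt_of_le one_pos (one_le_m1 h1)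
    have h9 : Real.log (m1 P) ≤ Real.log (max B' 1) :=
      Real.log_le_log h8 (le_max_of_le_left (Set.mem_Iio.mp hy).le)
    linarith
  have b2 : BC T2 := by
    intro B'
    refine ⟨Real.log (max B' 1), ?_⟩
    rintro y ⟨⟨n, hn, rfl⟩, hy⟩
    refine Pool.Agent.TH845.KN.nat_mem_LL n hn _ ?_
    exact Real.log_le_log (by exact_mod_cast hn) (le_max_of_le_left (Set.mem_Iio.mp hy).le)
  obtain ⟨K, hK⟩ := BC_monoid (b1.union b2) B₀
  refine ⟨K, ?_⟩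
  rintro x ⟨⟨A, B, N, g, H, hA, hg1, hH, hHκ, hdeg, hB, hU, hz, hx⟩, hxB⟩
  refine hK ⟨?_, hxB⟩
  have hκx : κ x ≤ κ₀ := (hκ (Set.mem_Iio.1 hxB).le).trans (le_max_left _ _)
  have hd : B.natDegree < N + A.natDegree := by omega
  set f : ℤ[X] := X ^ N * A + B with hf
  have hf0 : f ≠ 0 := by
    intro h0
    have h1 := lead_F hA hd
    rw [← hf, h0] at h1
    have h2 := one_le_lead hA
    rw [← h1] at h2
    simp [cx] at h2
    linarith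
  obtain ⟨d, P, Q, h1, h2, h3, h4, h5, h6, h7⟩ := companion hA hf0 hf hH hB hz
  obtain ⟨n, hn1, hn⟩ := m1_nat h2 h6
  rw [hx, h1, m1_mul, hn]
  refine Submonoid.mul_mem _ (Submonoid.subset_closure (Or.inr ⟨n, hn1, rfl⟩))
    (Submonoid.subset_closure (Or.inl ⟨P, Q, h3, h4, h5, h7.trans ?_, rfl⟩))
  have h10 : (cx A).mahlerMeasure = m1 A := rfl
  have h9 : (cx (X ^ N * A + B)).mahlerMeasure = m1 f := rfl
  have hMf : 1 ≤ m1 f := one_le_m1 hf0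
  have hMA : 1 ≤ m1 A := one_le_m1 hA
  have h11 : m1 A ≤ 2 * E * m1 f := by
    rcases hU with ⟨hkg, hkκ⟩ | ⟨U, hU0, hU1, hg, hm⟩
    · obtain ⟨r, hr1, hr2, -, hr3⟩ := small_gap (cx_ne hA) hH (by rw [cx_deg, cx_deg]; exact hdeg)
        (hB' hB) hkg
      rw [← cx_F, h9, h10] at hr3
      obtain ⟨k, hkd⟩ : ∃ k : ℕ, k = (Pool.Agent.N772.SC.out (cx A)).card := ⟨_, rfl⟩
      rw [← hkd] at hr1 hr2 hr3 hkκ
      have hkn : k ≤ n₀ := by
        have : (k:ℝ) ≤ n₀ := (hkκ.trans hκx).trans hn₀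
        exact_mod_cast this
      have hHn : H ≤ n₀ := (hHκ.trans hκx).trans hn₀
      have hr0 : 0 ≤ r := le_trans (by positivity) hr1
      have hrn : r ≤ (n₀:ℝ) * 2 ^ (3 * n₀ + 1) :=
        hr2.trans (mul_le_mul hHn (pow_le_pow_right₀ (by norm_num) (by omega)) (by positivity)
          (by linarith))
      have hrk : r ^ k ≤ E := by
        rw [hE]
        exact (pow_le_pow_left₀ hr0 hrn k).trans (pow_le_pow_right₀ hb1 hkn)
      refine hr3.trans ?_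
      apply mul_le_mul_of_nonneg_right _ (by linarith)
      linarith
    · have h8 := (int_ann hA hg1 hH hdeg hB hU0 hU1 one_pos hg).2
      rw [h9, h10] at h8
      have he : Real.exp (-1) ≤ 1 / 2 := by
        rw [Real.exp_neg, inv_eq_one_div]
        apply one_div_le_one_div_of_le (by norm_num)
        linarith [Real.exp_one_gt_d9]
      have h12 := mul_le_mul_of_nonneg_right ((hm.trans hκx).trans hEκ) (by linarith : 0 ≤ m1 f)
      nlinarith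
  have hE0 : 0 < E := by linarith
  have h13 : Real.log (m1 A) ≤ Real.log (2 * E) + Real.log (m1 f) := by
    rw [← Real.log_mul (by positivity) (by positivity)]
    exact Real.log_le_log (by linarith) h11
  have h14 : Real.log (2 + H) ≤ Real.log (2 + κ₀) :=
    Real.log_le_log (by linarith) (by linarith [hHκ.trans hκx])
  linarith

end Pool.Agent.N639.SC
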