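import Mathlib
import Pool.Agent.N639.SC.F

/-!
# Quadratic shifts and Salem's construction
-/

set_option autoImplicit false

open Polynomial MeasureTheory
open Pool.Agent.H261R2.CM

namespace Pool.Agent.N639.SC

lemma aeval_conj' (A : ℤ[X]) (z : ℂ) : aeval ((starRingEnd ℂ) z) A = (starRingEnd ℂ) (aeval z A) := by
  rw [aeval_def, aeval_def, Polynomial.hom_eval₂]
  congr 1
  exact RingHom.ext_int _ _

/-- `|A^*| = |A|` on the unit circle -/
lemma norm_reverse (A : ℤ[X]) {z : ℂ} (hz : ‖z‖ = 1) : ‖aeval z A.reverse‖ = ‖aeval z A‖ := by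
  have hz0 : z ≠ 0 := by
    rintro rfl
    simp at hz
  have hc0 : (starRingEnd ℂ) z ≠ 0 := by simpa using hz0
  let _ : Invertible ((starRingEnd ℂ) z) := invertibleOfNonzero hc0
  have h1 := eval₂_reverse_mul_pow (algebraMap ℤ ℂ) ((starRingEnd ℂ) z) A
  have h2 : ⅟((starRingEnd ℂ) z) = z := by
    rw [invOf_eq_inv]
    apply inv_eq_of_mul_eq_one_right
    rw [mul_comm, Complex.mul_conj, Complex.normSq_eq_norm_sq, hz]
    simp
  rw [h2] at h1
  have h3 : ‖aeval z A.reverse‖ * ‖(starRingEnd ℂ) z‖ ^ A.natDegree = ‖aeval ((starRingEnd ℂ) z) A‖ := by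
    rw [aeval_def, aeval_def, ← h1, norm_mul, norm_pow]
  rw [aeval_conj', RCLike.norm_conj, RCLike.norm_conj, hz, one_pow, mul_one] at h3
  exact h3

lemma ann_le_out (r : ℝ) (P : ℂ[X]) : (ann r P).card ≤ (Pool.Agent.N772.SC.out P).card := by
  classical
  unfold ann Pool.Agent.N772.SC.out
  apply Multiset.card_le_card
  apply Multiset.monotone_filter_right
  intro a ha
  exact ha.1

/-- the monotone function of the inclusions -/
noncomputable def kap (κ : ℝ → ℝ) (x : ℝ) : ℝ :=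
  Real.exp (32 * max 1 (κ x) * (1 + Real.log (max 1 (κ x))))

lemma kap_mono {κ : ℝ → ℝ} (hκ : Monotone κ) : Monotone (kap κ) := by
  intro x y hxy
  unfold kap
  apply Real.exp_le_exp.2
  have h0 : max 1 (κ x) ≤ max 1 (κ y) := max_le_max le_rfl (hκ hxy)
  have h1 : Real.log (max 1 (κ x)) ≤ Real.log (max 1 (κ y)) :=
    Real.log_le_log (lt_of_lt_of_le one_pos (le_max_left _ _)) h0
  have h2 : 0 ≤ Real.log (max 1 (κ x)) := Real.log_nonneg (le_max_left 1 (κ x))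
  have h3 : (1:ℝ) ≤ max 1 (κ x) := le_max_left _ _
  apply mul_le_mul (by linarith) (by linarith) (by linarith) (by linarith)

lemma one_le_kap (κ : ℝ → ℝ) (x : ℝ) : 1 ≤ kap κ x := by
  unfold kap
  have := Real.log_nonneg (le_max_left 1 (κ x))
  have h3 : (1:ℝ) ≤ max 1 (κ x) := le_max_left _ _
  exact Real.one_le_exp (by positivity)

lemma le_kap (κ : ℝ → ℝ) (x : ℝ) : κ x ≤ kap κ x := by
  have h0 := Real.log_nonneg (le_max_left 1 (κ x))
  have h1 := le_max_right 1 (κ x)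
  have h3 : (1:ℝ) ≤ max 1 (κ x) := le_max_left _ _
  refine h1.trans ?_
  rw [kap]
  refine le_trans ?_ (Real.add_one_le_exp _)
  nlinarith [mul_nonneg (by linarith : (0:ℝ) ≤ max 1 (κ x)) h0]

/-- the measures of the shifts of length quadratic in the number of outer zeros -/
def TQS (κ : ℝ → ℝ) : Set ℝ := {x : ℝ | ∃ (A B : ℤ[X]) (N g : ℕ) (H : ℝ),
  A ≠ 0 ∧ 1 ≤ g ∧ 1 ≤ H ∧ H ≤ κ x ∧ B.natDegree + g ≤ N + A.natDegree ∧
  (∀ z : ℂ, ‖z‖ = 1 → ‖aeval z B‖ ≤ H * ‖aeval z A‖) ∧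
  (((Pool.Agent.N772.SC.out (cx A)).card + 1 ≤ g ∧
      ((Pool.Agent.N772.SC.out (cx A)).card : ℝ) ≤ κ x) ∨
    12 * (((Pool.Agent.N772.SC.out (cx A)).card : ℝ) + 1) * (1 + Real.log H) ≤ g ∧
    ((Pool.Agent.N772.SC.out (cx A)).card : ℝ) ^ 2 ≤ κ x * g) ∧
  (∀ z : ℂ, 1 < ‖z‖ → aeval z A ≠ 0 ∨ aeval z B ≠ 0) ∧ x = m1 (X ^ N * A + B)}

theorem TQS_sub (κ : ℝ → ℝ) : TQS κ ⊆ TSH (kap κ) := by
  rintro x ⟨A, B, N, g, H, hA, hg1, hH, hHC, hdeg, hB, hgk, hz, hx⟩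
  refine ⟨A, B, N, g, H, hA, hg1, hH, hHC.trans (le_kap κ x), hdeg, hB, ?_, hz, hx⟩
  rcases hgk with h0 | ⟨hg, hk⟩
  · exact Or.inl ⟨h0.1, h0.2.trans (le_kap κ x)⟩
  obtain ⟨k, hkd⟩ : ∃ k : ℕ, k = (Pool.Agent.N772.SC.out (cx A)).card := ⟨_, rfl⟩
  rw [← hkd] at hg hk
  have hlH : 0 ≤ Real.log H := Real.log_nonneg hH
  have hHC' : H ≤ max 1 (κ x) := hHC.trans (le_max_right _ _)
  have hlHC : Real.log H ≤ Real.log (max 1 (κ x)) := Real.log_le_log (by linarith) hHC'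
  have hlC : 0 ≤ Real.log (max 1 (κ x)) := hlH.trans hlHC
  have hk0 : (0:ℝ) ≤ k := Nat.cast_nonneg k
  have hg0 : (0:ℝ) < g := by exact_mod_cast hg1
  obtain ⟨U, hU⟩ : ∃ U : ℝ, U = (1 + Real.log H + 24 / 5 * k) / g := ⟨_, rfl⟩
  have hU0 : 0 < U := by rw [hU]; positivity
  have hgU : g * U = 1 + Real.log H + 24 / 5 * k := by rw [hU]; field_simp
  have hle : 1 + Real.log H + 24 / 5 * k ≤ 24 / 5 * (((k:ℝ) + 1) * (1 + Real.log H)) := by
    nlinarith [mul_nonneg hk0 hlH]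
  have hU4 : U ≤ 2 / 5 := by
    rw [hU, div_le_iff₀ hg0]
    linarith
  have hU1 : U < 1 := by linarith
  refine Or.inr ⟨U, hU0, hU1, ?_, ?_⟩
  · rw [← hkd, hgU]
  · have hr : (1 + U) / (1 - U) ≤ Real.exp (10 * U / 3) := by
      have h1 : (1 + U) / (1 - U) ≤ 10 * U / 3 + 1 := by
        rw [div_le_iff₀ (by linarith)]
        nlinarith
      exact h1.trans (Real.add_one_le_exp _)
    have hr0 : 0 ≤ (1 + U) / (1 - U) := (div_pos (by linarith) (by linarith)).le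
    have hmk : (ann ((1 + U) / (1 - U)) (cx A)).card ≤ k := by rw [hkd]; exact ann_le_out _ _
    have h2 : ((1 + U) / (1 - U)) ^ (ann ((1 + U) / (1 - U)) (cx A)).card ≤
        Real.exp (10 * U / 3) ^ k := by
      refine (pow_le_pow_left₀ hr0 hr _).trans ?_
      exact pow_le_pow_right₀ (Real.one_le_exp (by positivity)) hmk
    refine h2.trans ?_
    rw [← Real.exp_nat_mul]
    apply Real.exp_le_exp.2
    have h3 : (k:ℝ) * U * g ≤ 48 / 5 * (k:ℝ) ^ 2 * (1 + Real.log H) := by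
      rcases Nat.eq_zero_or_pos k with h0 | h0
      · rw [h0]
        simp
      · have hk1 : (1:ℝ) ≤ k := by exact_mod_cast h0
        calc (k:ℝ) * U * g = k * (g * U) := by ring
          _ = k * (1 + Real.log H + 24 / 5 * k) := by rw [hgU]
          _ ≤ k * (24 / 5 * (((k:ℝ) + 1) * (1 + Real.log H))) := mul_le_mul_of_nonneg_left hle hk0
          _ ≤ _ := by nlinarith [mul_nonneg hk0 (by linarith : (0:ℝ) ≤ 1 + Real.log H)]
    have h4 : 48 / 5 * (k:ℝ) ^ 2 * (1 + Real.log H) ≤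
        48 / 5 * (max 1 (κ x) * g) * (1 + Real.log (max 1 (κ x))) := by
      have h7 := mul_le_mul_of_nonneg_right (le_max_right 1 (κ x)) hg0.le
      apply mul_le_mul _ (by linarith) (by linarith) (by positivity)
      linarith
    have h5 : (k:ℝ) * U ≤ 48 / 5 * max 1 (κ x) * (1 + Real.log (max 1 (κ x))) := by
      have h6 : (k:ℝ) * U * g ≤ 48 / 5 * max 1 (κ x) * (1 + Real.log (max 1 (κ x))) * g := by
        linarith
      exact le_of_mul_le_mul_right h6 hg0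
    calc (k:ℝ) * (10 * U / 3) = 10 / 3 * (k * U) := by ring
      _ ≤ 10 / 3 * (48 / 5 * max 1 (κ x) * (1 + Real.log (max 1 (κ x)))) :=
        mul_le_mul_of_nonneg_left h5 (by norm_num)
      _ = 32 * max 1 (κ x) * (1 + Real.log (max 1 (κ x))) := by ring

/-- the measures of the shifts by `A` without zeros near the circle -/
def TLN (κ : ℝ → ℝ) (ρ : ℝ) : Set ℝ := {x : ℝ | ∃ (A B : ℤ[X]) (N g : ℕ) (H : ℝ),
  A ≠ 0 ∧ 1 ≤ H ∧ H ≤ κ x ∧ B.natDegree + g ≤ N + A.natDegree ∧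
  (∀ z : ℂ, ‖z‖ = 1 → ‖aeval z B‖ ≤ H * ‖aeval z A‖) ∧
  (∀ z : ℂ, aeval z A = 0 → ‖z‖ ≤ 1 ∨ ρ < ‖z‖) ∧
  (ρ + 1) / (ρ - 1) * (1 + Real.log H + 24 / 5 * ((Pool.Agent.N772.SC.out (cx A)).card : ℝ)) ≤ g ∧
  (∀ z : ℂ, 1 < ‖z‖ → aeval z A ≠ 0 ∨ aeval z B ≠ 0) ∧ x = m1 (X ^ N * A + B)}

theorem TLN_sub (κ : ℝ → ℝ) {ρ : ℝ} (hρ : 1 < ρ) : TLN κ ρ ⊆ TSH (kap κ) := by
  rintro x ⟨A, B, N, g, H, hA, hH, hHC, hdeg, hB, hann, hg, hz, hx⟩
  have hlH : 0 ≤ Real.log H := Real.log_nonneg hH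
  have hk0 : (0:ℝ) ≤ (Pool.Agent.N772.SC.out (cx A)).card := Nat.cast_nonneg _
  have hp : 0 < 1 + Real.log H + 24 / 5 * ((Pool.Agent.N772.SC.out (cx A)).card : ℝ) := by
    positivity
  have hr1 : (0:ℝ) < ρ - 1 := by linarith
  have hr2 : (0:ℝ) < ρ + 1 := by linarith
  have hg0 : (0:ℝ) < g := lt_of_lt_of_le (mul_pos (div_pos hr2 hr1) hp) hg
  have hg1 : 1 ≤ g := by exact_mod_cast hg0
  have hU1 : (ρ - 1) / (ρ + 1) < 1 := by
    rw [div_lt_one hr2]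
    linarith
  have hU : (1 + (ρ - 1) / (ρ + 1)) / (1 - (ρ - 1) / (ρ + 1)) = ρ := by
    field_simp
    ring
  refine ⟨A, B, N, g, H, hA, hg1, hH, hHC.trans (le_kap κ x), hdeg, hB,
    Or.inr ⟨(ρ - 1) / (ρ + 1), div_pos hr1 hr2, hU1, ?_, ?_⟩, hz, hx⟩
  · have h1 := mul_le_mul_of_nonneg_right hg (div_pos hr1 hr2).le
    rw [mul_comm ((ρ + 1) / (ρ - 1)), mul_assoc, div_mul_div_comm, mul_comm (ρ + 1),
      div_self (by positivity), mul_one] at h1
    exact h1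
  · rw [hU]
    have h0 : (ann ρ (cx A)).card = 0 := by
      unfold ann
      rw [Multiset.card_eq_zero, Multiset.filter_eq_nil]
      rintro a ha ⟨h1, h2⟩
      have h3 : aeval a A = 0 := by
        rw [← ev]
        exact (mem_roots'.1 ha).2
      rcases hann a h3 with h | h <;> linarith
    rw [h0, pow_zero]
    exact one_le_kap κ x

/-- the constant polynomial `s` -/
noncomputable def sg (s : ℤ) : ℤ[X] := Polynomial.C s

/-- the measures given by Salem's construction -/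
def TSA (κ : ℝ → ℝ) : Set ℝ := {x : ℝ | ∃ (A : ℤ[X]) (N : ℕ) (s : ℤ),
  A ≠ 0 ∧ (s = 1 ∨ s = -1) ∧ 1 ≤ N ∧ (((Pool.Agent.N772.SC.out (cx A)).card + 1 ≤ N ∧
      ((Pool.Agent.N772.SC.out (cx A)).card : ℝ) ≤ κ x) ∨
    12 * (((Pool.Agent.N772.SC.out (cx A)).card : ℝ) + 1) ≤ N ∧
    ((Pool.Agent.N772.SC.out (cx A)).card : ℝ) ^ 2 ≤ κ x * N) ∧
  (∀ z : ℂ, 1 < ‖z‖ → aeval z A ≠ 0 ∨ aeval z A.reverse ≠ 0) ∧
  x = m1 (X ^ N * A + sg s * A.reverse)}

theorem TSA_sub (κ : ℝ → ℝ) : TSA κ ⊆ TQS (fun x => max 1 (κ x)) := by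
  rintro x ⟨A, N, s, hA, hs, hN, hk, hz, hx⟩
  have hs' : s ≠ 0 := by rcases hs with h | h <;> rw [h] <;> norm_num
  have hdeg : (sg s * A.reverse).natDegree ≤ A.natDegree := by
    refine (natDegree_C_mul_le s A.reverse).trans ?_
    exact reverse_natDegree_le A
  have hev : ∀ z : ℂ, aeval z (sg s * A.reverse) = (s : ℂ) * aeval z A.reverse := by
    intro z
    rw [sg, map_mul, aeval_C]
    rfl
  refine ⟨A, sg s * A.reverse, N, N, 1, hA, hN, le_rfl, le_max_left _ _, by omega, ?_, ?_, ?_, hx⟩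
  · intro z hz1
    rw [hev, norm_mul, norm_reverse A hz1, one_mul]
    rcases hs with h | h <;> rw [h] <;> simp
  · rw [Real.log_one, add_zero, mul_one]
    refine hk.imp (fun h => ⟨h.1, h.2.trans (le_max_right _ _)⟩) fun h => ⟨h.1, h.2.trans ?_⟩
    exact mul_le_mul_of_nonneg_right (le_max_right _ _) (Nat.cast_nonneg N)
  · intro z hz1
    rcases hz z hz1 with h | h
    · exact Or.inl h
    · refine Or.inr ?_
      rw [hev]
      exact mul_ne_zero (by exact_mod_cast hs') h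

end Pool.Agent.N639.SC
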