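import Mathlib
import Pool.Agent.N639.SC.H

/-!
# Shifts of length at least `k + 1`: integer polynomials
-/

set_option autoImplicit false

open Polynomial
open Pool.Agent.N772.SC (out ext_bound)

namespace Pool.Agent.N639.SC

theorem int_small {A B : ℤ[X]} (hA : A ≠ 0) {N g : ℕ} {H : ℝ} (hH : 1 ≤ H)
    (hdeg : B.natDegree + g ≤ N + A.natDegree)
    (hB : ∀ z : ℂ, ‖z‖ = 1 → ‖aeval z B‖ ≤ H * ‖aeval z A‖) (hk : (out (cx A)).card + 1 ≤ g) :
    (cx A).mahlerMeasure ≤ 2 * (H * 2 ^ (3 * (out (cx A)).card + 1)) ^ (out (cx A)).card *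
      (cx (X ^ N * A + B)).mahlerMeasure ∧
    ((∃ z : ℂ, aeval z A = 0 ∧ H * 2 ^ (3 * (out (cx A)).card + 1) < ‖z‖) →
      ∃ z : ℂ, aeval z (X ^ N * A + B) = 0 ∧ 4 < ‖z‖) := by
  classical
  obtain ⟨x, h1, h2, h3, h4⟩ := small_gap (cx_ne hA) hH (by rw [cx_deg, cx_deg]; exact hdeg)
    (hB' hB) hk
  rw [← cx_F] at h3 h4
  have hx0 : 0 < x := lt_of_lt_of_le (by positivity) h1
  have hd : B.natDegree < N + A.natDegree := by omega
  have hF : X ^ N * A + B ≠ 0 := by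
    intro h0
    have h5 := lead_F hA hd
    rw [h0] at h5
    have h6 := one_le_lead hA
    rw [← h5] at h6
    simp [cx] at h6
    linarith
  refine ⟨h4.trans ?_, ?_⟩
  · have h5 : 0 ≤ (cx (X ^ N * A + B)).mahlerMeasure := mahlerMeasure_nonneg _
    apply mul_le_mul_of_nonneg_right _ h5
    apply mul_le_mul_of_nonneg_left _ (by norm_num)
    exact pow_le_pow_left₀ hx0.le h2 _
  · rintro ⟨a, ha, ha1⟩
    have hax : x < ‖a‖ := lt_of_le_of_lt h2 ha1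
    have haev : (cx A).eval a = 0 := by rw [ev]; exact ha
    have hmem : a ∈ (cx A).roots := (mem_roots (cx_ne hA)).2 haev
    have hX2 : (2:ℝ) ≤ H * 2 ^ ((out (cx A)).card + 1) := by
      have h5 : (2:ℝ) ^ 1 ≤ 2 ^ ((out (cx A)).card + 1) := pow_le_pow_right₀ (by norm_num) (by omega)
      nlinarith
    have hao : a ∈ out (cx A) := Multiset.mem_filter.2 ⟨hmem, by linarith⟩
    have hk1 : 1 ≤ (out (cx A)).card := Multiset.card_pos_iff_exists_mem.2 ⟨a, hao⟩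
    have hX4 : (4:ℝ) ≤ H * 2 ^ ((out (cx A)).card + 1) := by
      have h5 : (2:ℝ) ^ 2 ≤ 2 ^ ((out (cx A)).card + 1) := pow_le_pow_right₀ (by norm_num) (by omega)
      nlinarith
    have hin : a ∈ outx x (cx A) := Multiset.mem_filter.2 ⟨hmem, hax⟩
    have hpos : 0 < (outx x (cx (X ^ N * A + B))).card := by
      rw [h3]
      exact Multiset.card_pos_iff_exists_mem.2 ⟨a, hin⟩
    obtain ⟨b, hb⟩ := Multiset.card_pos_iff_exists_mem.1 hpos
    have hb2 := Multiset.mem_filter.1 hb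
    refine ⟨b, ?_, by linarith [hb2.2]⟩
    rw [← ev]
    exact (mem_roots (cx_ne hF)).1 hb2.1

/-- the criterion at a given radius -/
theorem crit {A B : ℂ[X]} (hA : A ≠ 0) {N g : ℕ} {H : ℝ} (hH : 0 ≤ H) (hg1 : 1 ≤ g)
    (hdeg : B.natDegree + g ≤ N + A.natDegree)
    (hB : ∀ z : ℂ, ‖z‖ = 1 → ‖B.eval z‖ ≤ H * ‖A.eval z‖) {c : ℝ} (hc : 1 < c)
    (hne : ∀ z : ℂ, A.eval z = 0 → ‖z‖ ≠ c)
    (h : H * ((out A).map fun a => (c * ‖a‖ - 1) / |c - ‖a‖|).prod < c ^ g) :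
    (outx c (X ^ N * A + B)).card = (outx c A).card := by
  classical
  have hc0 : 0 < c := by linarith
  have hcg : 0 < c ^ g := by positivity
  obtain ⟨η, hη⟩ : ∃ η : ℝ, η = H * ((out A).map fun a => (c * ‖a‖ - 1) / |c - ‖a‖|).prod / c ^ g :=
    ⟨_, rfl⟩
  have hη1 : η < 1 := by
    rw [hη, div_lt_one hcg]
    exact h
  have hBx : ∀ z : ℂ, ‖z‖ = c → ‖B.eval z‖ ≤ η * (c ^ N * ‖A.eval z‖) := by
    intro z hz
    have h1 := ext_bound hA hH hdeg hB hc (fun a ha => by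
      have h2 := (Multiset.mem_filter.1 ha).1
      exact (hne a ((mem_roots hA).1 h2)).symm) hz
    have h3 : η * (c ^ N * ‖A.eval z‖) = (H * c ^ N * ‖A.eval z‖ *
        ((out A).map fun a => (c * ‖a‖ - 1) / |c - ‖a‖|).prod) / c ^ g := by
      rw [hη]
      field_simp
    rw [h3, le_div_iff₀ hcg]
    exact h1
  exact (card_outx hA (by omega) hc0 hη1 (fun z hz h0 => hne z h0 hz) hBx).1

theorem int_crit {A B : ℤ[X]} (hA : A ≠ 0) {N g : ℕ} {H : ℝ} (hH : 1 ≤ H) (hg1 : 1 ≤ g)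
    (hdeg : B.natDegree + g ≤ N + A.natDegree)
    (hB : ∀ z : ℂ, ‖z‖ = 1 → ‖aeval z B‖ ≤ H * ‖aeval z A‖) {c : ℝ} (hc : 1 < c)
    (hne : ∀ z : ℂ, aeval z A = 0 → ‖z‖ ≠ c)
    (h : H * ((out (cx A)).map fun a => (c * ‖a‖ - 1) / |c - ‖a‖|).prod < c ^ g) :
    (outx c (cx (X ^ N * A + B))).card = (outx c (cx A)).card := by
  rw [cx_F]
  exact crit (cx_ne hA) (by linarith) hg1 (by rw [cx_deg, cx_deg]; exact hdeg) (hB' hB) hc
    (fun z hz => hne z (by rw [← ev]; exact hz)) h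

theorem int_one_gen {A B : ℤ[X]} (hA : A ≠ 0) {N g : ℕ} {H : ℝ} (hH : 1 ≤ H) (hg1 : 1 ≤ g)
    (hdeg : B.natDegree + g ≤ N + A.natDegree)
    (hB : ∀ z : ℂ, ‖z‖ = 1 → ‖aeval z B‖ ≤ H * ‖aeval z A‖) (hk : (out (cx A)).card = 1)
    {c : ℝ} (hc : 1 < c) {t : ℂ} (ht : aeval t A = 0) (hct : c < ‖t‖)
    (h : H * (c * ‖t‖ - 1) < c ^ g * (‖t‖ - c)) :
    ∃ z : ℂ, aeval z (X ^ N * A + B) = 0 ∧ c < ‖z‖ := by
  classical
  have hev : (cx A).eval t = 0 := by rw [ev]; exact ht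
  have hmem : t ∈ (cx A).roots := (mem_roots (cx_ne hA)).2 hev
  have hto : t ∈ out (cx A) := Multiset.mem_filter.2 ⟨hmem, by linarith⟩
  obtain ⟨b, hb⟩ := Multiset.card_eq_one.1 hk
  have htb : t = b := by rw [hb] at hto; exact Multiset.mem_singleton.1 hto
  subst htb
  have hne : ∀ z : ℂ, aeval z A = 0 → ‖z‖ ≠ c := by
    intro z hz hzc
    have h1 : z ∈ out (cx A) := Multiset.mem_filter.2
      ⟨(mem_roots (cx_ne hA)).2 (by rw [IsRoot, ev]; exact hz), by rw [hzc]; exact hc⟩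
    rw [hb, Multiset.mem_singleton] at h1
    rw [h1] at hzc
    linarith
  have h1 := int_crit hA hH hg1 hdeg hB hc hne (by
    rw [hb, Multiset.map_singleton, Multiset.prod_singleton, abs_sub_comm,
      abs_of_pos (by linarith : 0 < ‖t‖ - c), mul_div_assoc', div_lt_iff₀ (by linarith)]
    exact h)
  have hin : t ∈ outx c (cx A) := Multiset.mem_filter.2 ⟨hmem, hct⟩
  have hpos : 0 < (outx c (cx (X ^ N * A + B))).card := by
    rw [h1]
    exact Multiset.card_pos_iff_exists_mem.2 ⟨t, hin⟩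
  obtain ⟨z, hz⟩ := Multiset.card_pos_iff_exists_mem.1 hpos
  have hz2 := Multiset.mem_filter.1 hz
  refine ⟨z, ?_, hz2.2⟩
  rw [← ev]
  exact (mem_roots'.1 hz2.1).2

end Pool.Agent.N639.SC
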